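import Pool.Agent.U996.UW.Primes

/-!
# Averages over the following integers: small oscillating integrals, uniform in the length
-/

set_option autoImplicit false

namespace Pool.Agent.U996.WA

open Finset MeasureTheory
open Pool.Agent.H376R2.MR (er)
open Pool.Agent.Y957.AD (er_norm er_add er_zero)
open Pool.Agent.Y957.VK
open Pool.Agent.U996.UW

/-- the mean of a sequence over the `y` integers that follow `m` -/
noncomputable def av (f : ℕ → ℂ) (y m : ℕ) : ℂ := (1 / (y : ℂ)) * ∑ h ∈ Icc 1 y, f (m + h)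

theorem sum_next (f : ℕ → ℂ) (m : ℕ) : ∀ y : ℕ, ∑ h ∈ Icc 1 y, f (m + h) =
    ∑ k ∈ Icc 1 (m + y), f k - ∑ k ∈ Icc 1 m, f k := by
  intro y
  induction y with
  | zero => simp
  | succ y ih =>
    rw [Finset.sum_Icc_succ_top (by omega), ih, ← add_assoc, Finset.sum_Icc_succ_top (by omega)]
    ring

theorem av_le {f : ℕ → ℂ} (hf1 : ∀ n, ‖f n‖ ≤ 1) {y : ℕ} (hy : 1 ≤ y) (m : ℕ) : ‖av f y m‖ ≤ 1 := by
  have hy0 : (0 : ℝ) < y := by exact_mod_cast hy
  unfold av
  rw [norm_mul, norm_div, norm_one, Complex.norm_natCast]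
  have h1 : ‖∑ h ∈ Icc 1 y, f (m + h)‖ ≤ y := by
    refine (norm_sum_le _ _).trans ?_
    refine (Finset.sum_le_sum fun h _ => hf1 (m + h)).trans (le_of_eq ?_)
    rw [Finset.sum_const, Nat.card_Icc, nsmul_eq_mul, mul_one, Nat.add_sub_cancel]
  calc 1 / (y : ℝ) * ‖∑ h ∈ Icc 1 y, f (m + h)‖ ≤ 1 / (y : ℝ) * y :=
        mul_le_mul_of_nonneg_left h1 (by positivity)
    _ = 1 := by field_simp

/-- the twisted sums -/
theorem part_bd (f : ℕ → ℂ) (hf : Neg f) (P K : ℕ) : ∃ CF : ℝ, 0 ≤ CF ∧ ∀ (x η X : ℝ) (N : ℕ), 1 ≤ x →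
    X = Real.exp x → 32 ≤ X → |η| ≤ Real.exp (P * x) → X / 4 ≤ N →
      ‖∑ k ∈ Icc 1 N, f k * er η (Real.log k)‖ ≤ CF * N / x ^ K := by
  obtain ⟨C, hC⟩ := hf (2 * P) K
  refine ⟨|C| * 2 ^ K, by positivity, fun x η X N hx hX hX32 hη hN => ?_⟩
  have hXpos : 0 < X := by linarith
  have hN8 : (8 : ℝ) ≤ N := by linarith
  have hN0 : (0 : ℝ) < N := by linarith
  have hN2' : 2 ≤ N := by exact_mod_cast (show (2 : ℝ) ≤ (N : ℝ) by linarith)
  have hXN : X ≤ (N : ℝ) ^ 2 := by nlinarith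
  have hη2 : |η| ≤ (N : ℝ) ^ (2 * P) := by
    calc |η| ≤ Real.exp (P * x) := hη
      _ = X ^ P := by rw [hX, ← Real.exp_nat_mul]
      _ ≤ ((N : ℝ) ^ 2) ^ P := pow_le_pow_left₀ hXpos.le hXN P
      _ = _ := by rw [← pow_mul]
  have h1 := hC N η hN2' hη2
  have hlogN : x / 2 ≤ Real.log N := by
    have h2 := Real.log_le_log hXpos hXN
    rw [Real.log_pow, hX, Real.log_exp] at h2
    push_cast at h2
    linarith
  have h3 : (x / 2) ^ K ≤ Real.log N ^ K := pow_le_pow_left₀ (by linarith) hlogN _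
  calc _ ≤ C * N / Real.log N ^ K := h1
    _ ≤ |C| * N / (x / 2) ^ K := by
        refine div_le_div₀ (by positivity) ?_ (by positivity) h3
        exact mul_le_mul_of_nonneg_right (le_abs_self _) hN0.le
    _ = _ := by
        rw [div_pow]
        field_simp

theorem G_eq (η : ℝ) (m : ℕ) : er η (Real.log m) * ps η m =
    ∫ s in (Real.log m)..(Real.log (m + 1 : ℕ)), er η s := by
  unfold ps dl
  rw [← intervalIntegral.integral_const_mul]
  have e : ∀ y : ℝ, er η (Real.log m) * er η y = er η (Real.log m + y) := fun y => (er_add _ _ _).symm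
  simp_rw [e]
  rw [intervalIntegral.integral_comp_add_left (fun s => er η s) (Real.log m)]
  congr 1
  · ring
  · push_cast
    ring

theorem Z_eq (η : ℝ) (k : ℕ) : ∀ y : ℕ, y < k →
    ∑ h ∈ Icc 1 y, er η (Real.log (k - h : ℕ)) * ps η (k - h) =
      ∫ s in (Real.log (k - y : ℕ))..(Real.log k), er η s := by
  intro y
  induction y with
  | zero =>
    intro _
    simp
  | succ y ih =>
    intro hy
    rw [Finset.sum_Icc_succ_top (by omega), ih (by omega), G_eq]
    have e : k - (y + 1) + 1 = k - y := by omega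
    rw [e, add_comm]
    exact intervalIntegral.integral_add_adjacent_intervals (er_int η _ _) (er_int η _ _)

theorem W_eq (η : ℝ) (a b : ℝ) : ∫ s in a..b, er η s = er η b * ∫ s in (a - b)..0, er η s := by
  rw [← intervalIntegral.integral_const_mul]
  have e : ∀ y : ℝ, er η b * er η y = er η (b + y) := fun y => (er_add _ _ _).symm
  simp_rw [e]
  rw [intervalIntegral.integral_comp_add_left (fun s => er η s) b]
  congr 1 <;> ring

theorem W_diff (η a b : ℝ) : ‖(∫ s in a..0, er η s) - ∫ s in b..0, er η s‖ ≤ |b - a| := by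
  have e : (∫ s in a..0, er η s) - ∫ s in b..0, er η s = ∫ s in a..b, er η s := by
    rw [← intervalIntegral.integral_add_adjacent_intervals (er_int η a b) (er_int η b 0)]
    ring
  rw [e]
  have h := intervalIntegral.norm_integral_le_of_norm_le_const (a := a) (b := b) (C := 1)
    (f := fun y => er η y) (fun y _ => (er_norm η y).le)
  rwa [one_mul] at h

/-- the step of the logarithmic window -/
theorem log_step {k y : ℕ} (hy : y < k) :
    0 ≤ (Real.log ((k + 1 - y : ℕ) : ℝ) - Real.log ((k + 1 : ℕ) : ℝ)) -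
      (Real.log ((k - y : ℕ) : ℝ) - Real.log (k : ℝ)) ∧
    (Real.log ((k + 1 - y : ℕ) : ℝ) - Real.log ((k + 1 : ℕ) : ℝ)) -
      (Real.log ((k - y : ℕ) : ℝ) - Real.log (k : ℝ)) ≤ (y + 1) / (((k - y : ℕ) : ℝ) * k) := by
  obtain ⟨m, hm⟩ : ∃ m : ℕ, m = k - y := ⟨_, rfl⟩
  have hk : k = m + y := by omega
  have e1 : k + 1 - y = m + 1 := by omega
  rw [e1, ← hm]
  have hm1 : 1 ≤ m := by omega
  have hm0 : (0 : ℝ) < m := by exact_mod_cast hm1
  have hk0 : (0 : ℝ) < k := by exact_mod_cast (show 0 < k by omega)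
  have hkm : (m : ℝ) ≤ k := by exact_mod_cast (show m ≤ k by omega)
  have hkr : (k : ℝ) = m + y := by exact_mod_cast hk
  have a1 : Real.log ((m + 1 : ℕ) : ℝ) - Real.log m = Real.log (1 + 1 / m) := by
    rw [← Real.log_div (by positivity) hm0.ne']
    congr 1
    push_cast
    field_simp
  have a2 : Real.log ((k + 1 : ℕ) : ℝ) - Real.log k = Real.log (1 + 1 / k) := by
    rw [← Real.log_div (by positivity) hk0.ne']
    congr 1
    push_cast
    field_simp
  have a3 : Real.log (1 + 1 / (k : ℝ)) ≤ Real.log (1 + 1 / m) := by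
    apply Real.log_le_log (by positivity)
    have := one_div_le_one_div_of_le hm0 hkm
    linarith
  have a4 : Real.log (1 + 1 / (m : ℝ)) ≤ 1 / m := by
    have := Real.log_le_sub_one_of_pos (show (0 : ℝ) < 1 + 1 / m by positivity)
    linarith
  have a5 : 1 / ((k : ℝ) + 1) ≤ Real.log (1 + 1 / k) := by
    have h1 := Real.one_sub_inv_le_log_of_pos (show (0 : ℝ) < 1 + 1 / k by positivity)
    have h2 : 1 - (1 + 1 / (k : ℝ))⁻¹ = 1 / (k + 1) := by
      field_simp
      ring
    linarith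
  refine ⟨by linarith, ?_⟩
  have a6 : (1 : ℝ) / m - 1 / (k + 1) ≤ (y + 1) / (m * k) := by
    rw [div_sub_div _ _ hm0.ne' (by positivity), div_le_div_iff₀ (by positivity) (by positivity)]
    have h1 : (1 : ℝ) * (k + 1) - m * 1 = y + 1 := by rw [hkr]; ring
    rw [h1]
    have h2 : (m : ℝ) * k ≤ m * (k + 1) := by nlinarith
    exact mul_le_mul_of_nonneg_left h2 (by positivity)
  linarith

/-- the sum over the cells, uniform in the length of the averages -/
theorem cellw (f : ℕ → ℂ) (hf1 : ∀ n, ‖f n‖ ≤ 1) (hf : Neg f) (P K : ℕ) (E : ℝ) (hE : 1 ≤ E) :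
    ∃ C X0 : ℝ, 0 ≤ C ∧ ∀ (y : ℕ) (x η X : ℝ) (m0 m1 : ℕ), 1 ≤ y → 1 ≤ x → X = Real.exp x → X0 ≤ X →
      |η| ≤ Real.exp (P * x) → X - 1 ≤ m0 → m0 ≤ m1 → (m1 : ℝ) ≤ E * X → X / 2 ≤ m1 →
      ‖∑ m ∈ Ico m0 m1, av f y m * (er η (Real.log m) * ps η m)‖ ≤ C / x ^ K := by
  obtain ⟨CF, hCF0, hCF⟩ := part_bd f hf P (2 * K)
  refine ⟨18 * E ^ 2 * CF + 1 + 2 * CF * E * (4 + 16 * E), 32, by positivity, ?_⟩
  intro y x η X m0 m1 hy hx hX hX32 hη hm0 h01 hm1 hm1'
  have hXpos : 0 < X := by linarith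
  have hm0r : X / 2 ≤ m0 := by linarith
  have hm0pos : (0 : ℝ) < m0 := by linarith
  have hm0n : 1 ≤ m0 := by exact_mod_cast (show (1 : ℝ) ≤ (m0 : ℝ) by linarith)
  have h01r : (m0 : ℝ) ≤ m1 := by exact_mod_cast h01
  have hxK : 1 ≤ x ^ K := one_le_pow₀ hx
  have hxKpos : 0 < x ^ K := by positivity
  have hx2K : x ^ (2 * K) = x ^ K * x ^ K := by rw [two_mul, pow_add]
  have hyr : (1 : ℝ) ≤ y := by exact_mod_cast hy
  have hypos : (0 : ℝ) < y := by linarith
  have hnum : (m1 : ℝ) - m0 ≤ E * X := by linarith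
  have hE0 : 0 < E := by linarith
  obtain ⟨G, hG⟩ : ∃ G : ℕ → ℂ, G = fun m : ℕ => er η (Real.log m) * ps η m := ⟨_, rfl⟩
  have hGm : ∀ m, m0 ≤ m → ‖G m‖ ≤ 2 / X := by
    intro m hm
    have hmr : (m0 : ℝ) ≤ m := by exact_mod_cast hm
    rw [hG]
    simp only
    rw [norm_mul, er_norm, one_mul]
    refine (ps_le η (hm0n.trans hm)).trans ?_
    rw [div_le_div_iff₀ (by linarith) hXpos]
    linarith
  have triv : ∀ D : ℝ, 0 ≤ D → (∀ m ∈ Ico m0 m1, ‖av f y m‖ ≤ D) →
      ‖∑ m ∈ Ico m0 m1, av f y m * G m‖ ≤ (m1 - m0) * (D * (2 / X)) := by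
    intro D hD h
    refine (norm_sum_le _ _).trans ?_
    have h2 : ∑ m ∈ Ico m0 m1, ‖av f y m * G m‖ ≤ ∑ _m ∈ Ico m0 m1, D * (2 / X) := by
      refine Finset.sum_le_sum fun m hm => ?_
      rw [norm_mul]
      exact mul_le_mul (h m hm) (hGm m (Finset.mem_Ico.1 hm).1) (norm_nonneg _) hD
    refine h2.trans (le_of_eq ?_)
    rw [Finset.sum_const, Nat.card_Ico, nsmul_eq_mul, Nat.cast_sub h01]
  have eG : ∑ m ∈ Ico m0 m1, av f y m * (er η (Real.log m) * ps η m) =
      ∑ m ∈ Ico m0 m1, av f y m * G m := by rw [hG]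
  rw [eG]
  rcases le_or_gt X (4 * y * x ^ K) with hc | hc
  · -- long averages
    have h1 : ∀ m ∈ Ico m0 m1, ‖av f y m‖ ≤ 9 * E * CF / x ^ K := by
      intro m hm
      have hm' := Finset.mem_Ico.1 hm
      have hmr : (m0 : ℝ) ≤ m := by exact_mod_cast hm'.1
      have hmr1 : (m : ℝ) ≤ m1 := by exact_mod_cast hm'.2.le
      have hS : ∀ n : ℕ, m ≤ n → ‖∑ k ∈ Icc 1 n, f k‖ ≤ CF * n / x ^ (2 * K) := by
        intro n hn
        have hnr : (m : ℝ) ≤ n := by exact_mod_cast hn
        have h2 := hCF x 0 X n hx hX hX32 (by rw [abs_zero]; exact (Real.exp_pos _).le)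
          (by linarith)
        simpa only [er_zero, mul_one] using h2
      unfold av
      rw [sum_next, norm_mul, norm_div, norm_one, Complex.norm_natCast]
      have h2 : ‖∑ k ∈ Icc 1 (m + y), f k - ∑ k ∈ Icc 1 m, f k‖ ≤
          CF * (9 * E * y * x ^ K) / x ^ (2 * K) := by
        refine (norm_sub_le _ _).trans ?_
        have h3 := hS (m + y) (by omega)
        have h4 := hS m le_rfl
        push_cast at h3
        have h5 : (m : ℝ) + y + m ≤ 9 * E * y * x ^ K := by
          have h6 : (m : ℝ) ≤ E * (4 * y * x ^ K) :=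
            hmr1.trans (hm1.trans (mul_le_mul_of_nonneg_left hc hE0.le))
          have h7 : (y : ℝ) ≤ E * y * x ^ K := by
            have h8 : (y : ℝ) ≤ y * (E * x ^ K) :=
              le_mul_of_one_le_right hypos.le (one_le_mul_of_one_le_of_one_le hE hxK)
            calc (y : ℝ) ≤ y * (E * x ^ K) := h8
              _ = _ := by ring
          calc (m : ℝ) + y + m ≤ E * (4 * y * x ^ K) + E * y * x ^ K + E * (4 * y * x ^ K) := by
                linarith
            _ = _ := by ring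
        calc _ ≤ CF * (m + y) / x ^ (2 * K) + CF * m / x ^ (2 * K) := add_le_add h3 h4
          _ = CF * (m + y + m) / x ^ (2 * K) := by ring
          _ ≤ _ := by
              apply div_le_div_of_nonneg_right _ (by positivity)
              exact mul_le_mul_of_nonneg_left h5 hCF0
      calc 1 / (y : ℝ) * ‖∑ k ∈ Icc 1 (m + y), f k - ∑ k ∈ Icc 1 m, f k‖ ≤
            1 / (y : ℝ) * (CF * (9 * E * y * x ^ K) / x ^ (2 * K)) :=
            mul_le_mul_of_nonneg_left h2 (by positivity)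
        _ = _ := by
            rw [hx2K]
            field_simp
    refine (triv _ (by positivity) h1).trans ?_
    calc ((m1 : ℝ) - m0) * (9 * E * CF / x ^ K * (2 / X)) ≤
          (E * X) * (9 * E * CF / x ^ K * (2 / X)) := mul_le_mul_of_nonneg_right hnum (by positivity)
      _ = 18 * E ^ 2 * CF / x ^ K := by
          field_simp
          ring
      _ ≤ _ := by
          apply div_le_div_of_nonneg_right _ hxKpos.le
          have : 0 ≤ 2 * CF * E * (4 + 16 * E) := by positivity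
          linarith
  -- short averages
  have hyX : (y : ℝ) / X ≤ 1 / (4 * x ^ K) := by
    rw [div_le_div_iff₀ hXpos (by positivity)]
    linarith
  rcases lt_or_ge m1 (m0 + y) with hs | hs
  · have hsr : (m1 : ℝ) - m0 ≤ y := by
      have : (m1 : ℝ) < ((m0 + y : ℕ) : ℝ) := by exact_mod_cast hs
      push_cast at this
      linarith
    refine (triv 1 zero_le_one fun m _ => av_le hf1 hy m).trans ?_
    calc ((m1 : ℝ) - m0) * (1 * (2 / X)) ≤ y * (1 * (2 / X)) :=
          mul_le_mul_of_nonneg_right hsr (by positivity)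
      _ = 2 * (y / X) := by ring
      _ ≤ 2 * (1 / (4 * x ^ K)) := by linarith
      _ = (1 / 2) / x ^ K := by
          field_simp
          norm_num
      _ ≤ _ := by
          apply div_le_div_of_nonneg_right _ hxKpos.le
          have : 0 ≤ 18 * E ^ 2 * CF + 2 * CF * E * (4 + 16 * E) := by positivity
          linarith
  have hsr : (m0 : ℝ) + y ≤ m1 := by exact_mod_cast hs
  obtain ⟨n0, hn0⟩ : ∃ n0 : ℕ, n0 = m0 + y := ⟨_, rfl⟩
  have hn01 : n0 ≤ m1 := by omega
  have hn0r : (n0 : ℝ) = m0 + y := by rw [hn0]; push_cast; ring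
  -- exchange of the two sums
  have e1 : ∑ m ∈ Ico m0 m1, av f y m * G m =
      (1 / (y : ℂ)) * ∑ h ∈ Icc 1 y, ∑ m ∈ Ico m0 m1, f (m + h) * G m := by
    rw [Finset.sum_comm, Finset.mul_sum]
    refine Finset.sum_congr rfl fun m _ => ?_
    unfold av
    rw [Finset.mul_sum, Finset.sum_mul, Finset.mul_sum]
    refine Finset.sum_congr rfl fun h _ => ?_
    ring
  have e2 : ∀ h ∈ Icc 1 y, ∑ m ∈ Ico m0 m1, f (m + h) * G m =
      ∑ k ∈ Ico (m0 + h) n0, f k * G (k - h) + ∑ k ∈ Ico n0 m1, f k * G (k - h) +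
        ∑ k ∈ Ico m1 (m1 + h), f k * G (k - h) := by
    intro h hh
    have hh' := Finset.mem_Icc.1 hh
    rw [Finset.sum_Ico_consecutive _ (by omega) hn01, Finset.sum_Ico_consecutive _ (by omega) (by omega)]
    rw [← Finset.sum_Ico_add' (fun k => f k * G (k - h)) m0 m1 h]
    refine Finset.sum_congr rfl fun m _ => ?_
    rw [Nat.add_sub_cancel]
  have edge : ∀ (h a b : ℕ), 1 ≤ h → m0 + h ≤ a → a ≤ b →
      ‖∑ k ∈ Ico a b, f k * G (k - h)‖ ≤ (b - a) * (2 / X) := by
    intro h a b hh ha hab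
    refine (norm_sum_le _ _).trans ?_
    have h2 : ∑ k ∈ Ico a b, ‖f k * G (k - h)‖ ≤ ∑ _k ∈ Ico a b, 2 / X := by
      refine Finset.sum_le_sum fun k hk => ?_
      have hk' := (Finset.mem_Ico.1 hk).1
      rw [norm_mul]
      calc ‖f k‖ * ‖G (k - h)‖ ≤ 1 * (2 / X) :=
            mul_le_mul (hf1 k) (hGm _ (by omega)) (norm_nonneg _) zero_le_one
        _ = _ := one_mul _
    refine h2.trans (le_of_eq ?_)
    rw [Finset.sum_const, Nat.card_Ico, nsmul_eq_mul, Nat.cast_sub hab]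
  obtain ⟨W, hW⟩ : ∃ W : ℕ → ℂ, W = fun k : ℕ =>
      ∫ s in (Real.log ((k - y : ℕ) : ℝ) - Real.log (k : ℝ))..0, er η s := ⟨_, rfl⟩
  have e3 : ∑ h ∈ Icc 1 y, ∑ k ∈ Ico n0 m1, f k * G (k - h) =
      ∑ k ∈ Ico n0 m1, (f k * er η (Real.log k)) * W k := by
    rw [Finset.sum_comm]
    refine Finset.sum_congr rfl fun k hk => ?_
    have hk' := (Finset.mem_Ico.1 hk).1
    rw [← Finset.mul_sum, mul_assoc]
    congr 1
    have h1 := Z_eq η k y (by omega)
    rw [W_eq] at h1
    rw [hW, hG]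
    exact h1
  -- partial summation
  have hmid : ‖∑ k ∈ Ico n0 m1, (f k * er η (Real.log k)) * W k‖ ≤
      (2 * CF * (E * X) / x ^ (2 * K)) * (4 * y / X + (m1 - n0 : ℝ) * (16 * y / X ^ 2)) := by
    have hyM : (y : ℝ) ≤ X / 4 := by
      have h1 : (y : ℝ) ≤ y * x ^ K := le_mul_of_one_le_right hypos.le hxK
      linarith
    refine abel_bd (fun k => f k * er η (Real.log k)) W n0 m1 hn01 _ _ _ (by positivity) ?_ ?_ ?_
    · intro j hj hj1
      have hjr : (n0 : ℝ) ≤ j := by exact_mod_cast hj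
      have hjr1 : (j : ℝ) ≤ m1 := by exact_mod_cast hj1
      have hn1 : 1 ≤ n0 := by omega
      rw [fsum _ hn1 hj]
      refine (norm_sub_le _ _).trans ?_
      have g1 := hCF x η X (j - 1) hx hX hX32 hη (by
        rw [Nat.cast_sub (by omega)]; push_cast; linarith)
      have g2 := hCF x η X (n0 - 1) hx hX hX32 hη (by
        rw [Nat.cast_sub (by omega)]; push_cast; linarith)
      have g3 : CF * ((j - 1 : ℕ) : ℝ) / x ^ (2 * K) ≤ CF * (E * X) / x ^ (2 * K) := by
        apply div_le_div_of_nonneg_right _ (by positivity)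
        apply mul_le_mul_of_nonneg_left _ hCF0
        rw [Nat.cast_sub (by omega)]
        push_cast
        linarith
      have g4 : CF * ((n0 - 1 : ℕ) : ℝ) / x ^ (2 * K) ≤ CF * (E * X) / x ^ (2 * K) := by
        apply div_le_div_of_nonneg_right _ (by positivity)
        apply mul_le_mul_of_nonneg_left _ hCF0
        rw [Nat.cast_sub (by omega)]
        push_cast
        linarith
      calc _ ≤ CF * (E * X) / x ^ (2 * K) + CF * (E * X) / x ^ (2 * K) :=
            add_le_add (g1.trans g3) (g2.trans g4)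
        _ = _ := by ring
    · rw [hW]
      simp only
      have h1 := intervalIntegral.norm_integral_le_of_norm_le_const
        (a := Real.log ((m1 - y : ℕ) : ℝ) - Real.log (m1 : ℝ)) (b := 0) (C := 1)
        (f := fun s => er η s) (fun s _ => (er_norm η s).le)
      rw [one_mul, zero_sub, abs_neg] at h1
      refine h1.trans ?_
      have hm1y : ((m1 - y : ℕ) : ℝ) = (m1 : ℝ) - y := by rw [Nat.cast_sub (by omega)]
      have hpos1 : (0 : ℝ) < (m1 : ℝ) - y := by linarith
      have hm1pos : (0 : ℝ) < m1 := by linarith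
      rw [hm1y, abs_sub_comm, ← Real.log_div hm1pos.ne' hpos1.ne']
      have h2 : 1 ≤ (m1 : ℝ) / (m1 - y) := by
        rw [le_div_iff₀ hpos1]
        linarith
      rw [abs_of_nonneg (Real.log_nonneg h2)]
      have h3 := Real.log_le_sub_one_of_pos (show 0 < (m1 : ℝ) / (m1 - y) by positivity)
      refine h3.trans ?_
      rw [div_sub_one hpos1.ne', div_le_div_iff₀ hpos1 hXpos]
      nlinarith
    · intro k hk
      have hk' := (Finset.mem_Ico.1 hk).1
      have hkr : (n0 : ℝ) ≤ k := by exact_mod_cast hk'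
      have hyk : y < k := by omega
      rw [hW]
      simp only
      rw [norm_sub_rev]
      refine (W_diff η _ _).trans ?_
      obtain ⟨s1, s2⟩ := log_step hyk
      rw [abs_of_nonneg s1]
      refine s2.trans ?_
      have hky : ((k - y : ℕ) : ℝ) = (k : ℝ) - y := by rw [Nat.cast_sub hyk.le]
      rw [hky]
      have q1 : X / 2 ≤ (k : ℝ) - y := by linarith
      have q2 : X / 2 ≤ (k : ℝ) := by linarith
      have q3 : X / 2 * (X / 2) ≤ ((k : ℝ) - y) * k := mul_le_mul q1 q2 (by positivity) (by linarith)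
      rw [div_le_div_iff₀ (by nlinarith) (by positivity)]
      have q4 : ((y : ℝ) + 1) * X ^ 2 ≤ (2 * y) * X ^ 2 :=
        mul_le_mul_of_nonneg_right (by linarith) (by positivity)
      have q5 : 16 * (y : ℝ) * (X / 2 * (X / 2)) ≤ 16 * y * (((k : ℝ) - y) * k) :=
        mul_le_mul_of_nonneg_left q3 (by positivity)
      nlinarith
  -- assembly
  have e4 : ∑ m ∈ Ico m0 m1, av f y m * G m =
      (1 / (y : ℂ)) * (∑ h ∈ Icc 1 y, (∑ k ∈ Ico (m0 + h) n0, f k * G (k - h) +
        ∑ k ∈ Ico m1 (m1 + h), f k * G (k - h)) +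
        ∑ k ∈ Ico n0 m1, (f k * er η (Real.log k)) * W k) := by
    rw [e1, ← e3, ← Finset.sum_add_distrib]
    congr 1
    refine Finset.sum_congr rfl fun h hh => ?_
    rw [e2 h hh]
    ring
  have hedge : ‖∑ h ∈ Icc 1 y, (∑ k ∈ Ico (m0 + h) n0, f k * G (k - h) +
        ∑ k ∈ Ico m1 (m1 + h), f k * G (k - h))‖ ≤ y * (y * (2 / X)) := by
    refine (norm_sum_le _ _).trans ?_
    have h2 : ∑ h ∈ Icc 1 y, ‖∑ k ∈ Ico (m0 + h) n0, f k * G (k - h) +
        ∑ k ∈ Ico m1 (m1 + h), f k * G (k - h)‖ ≤ ∑ _h ∈ Icc 1 y, (y : ℝ) * (2 / X) := by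
      refine Finset.sum_le_sum fun h hh => ?_
      have hh' := Finset.mem_Icc.1 hh
      refine (norm_add_le _ _).trans ?_
      have g1 := edge h (m0 + h) n0 hh'.1 le_rfl (by omega)
      have g2 := edge h m1 (m1 + h) hh'.1 (by omega) (by omega)
      push_cast at g1 g2
      have e5 : ((n0 : ℝ) - (m0 + h)) * (2 / X) + ((m1 : ℝ) + h - m1) * (2 / X) = y * (2 / X) := by
        rw [hn0r]
        ring
      linarith
    refine h2.trans (le_of_eq ?_)
    rw [Finset.sum_const, Nat.card_Icc, nsmul_eq_mul, Nat.add_sub_cancel]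
  rw [e4, norm_mul, norm_div, norm_one, Complex.norm_natCast]
  have hfin : (m1 - n0 : ℝ) * (16 * y / X ^ 2) ≤ 16 * E * y / X := by
    have h1 : (m1 - n0 : ℝ) ≤ E * X := by linarith
    calc (m1 - n0 : ℝ) * (16 * y / X ^ 2) ≤ (E * X) * (16 * y / X ^ 2) :=
          mul_le_mul_of_nonneg_right h1 (by positivity)
      _ = _ := by field_simp
  have hmid2 : ‖∑ k ∈ Ico n0 m1, (f k * er η (Real.log k)) * W k‖ ≤
      2 * CF * E * (4 + 16 * E) * y / x ^ (2 * K) := by
    refine hmid.trans ?_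
    calc (2 * CF * (E * X) / x ^ (2 * K)) * (4 * y / X + (m1 - n0 : ℝ) * (16 * y / X ^ 2)) ≤
          (2 * CF * (E * X) / x ^ (2 * K)) * (4 * y / X + 16 * E * y / X) := by
          apply mul_le_mul_of_nonneg_left _ (by positivity)
          linarith
      _ = _ := by field_simp
  calc 1 / (y : ℝ) * ‖∑ h ∈ Icc 1 y, (∑ k ∈ Ico (m0 + h) n0, f k * G (k - h) +
        ∑ k ∈ Ico m1 (m1 + h), f k * G (k - h)) +
        ∑ k ∈ Ico n0 m1, (f k * er η (Real.log k)) * W k‖ ≤
        1 / (y : ℝ) * (y * (y * (2 / X)) + 2 * CF * E * (4 + 16 * E) * y / x ^ (2 * K)) := by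
        apply mul_le_mul_of_nonneg_left _ (by positivity)
        exact (norm_add_le _ _).trans (add_le_add hedge hmid2)
    _ = 2 * (y / X) + 2 * CF * E * (4 + 16 * E) / x ^ (2 * K) := by
        field_simp
    _ ≤ 1 / x ^ K + 2 * CF * E * (4 + 16 * E) / x ^ K := by
        have h1 : 2 * ((y : ℝ) / X) ≤ 1 / x ^ K := by
          calc 2 * ((y : ℝ) / X) ≤ 2 * (1 / (4 * x ^ K)) := by linarith
            _ = (1 / 2) / x ^ K := by
                field_simp
                norm_num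
            _ ≤ _ := div_le_div_of_nonneg_right (by norm_num) hxKpos.le
        have h2 : 2 * CF * E * (4 + 16 * E) / x ^ (2 * K) ≤ 2 * CF * E * (4 + 16 * E) / x ^ K := by
          apply div_le_div_of_nonneg_left (by positivity) hxKpos
          rw [hx2K]
          exact le_mul_of_one_le_right hxKpos.le hxK
        linarith
    _ ≤ _ := by
        rw [← add_div]
        apply div_le_div_of_nonneg_right _ hxKpos.le
        have : 0 ≤ 18 * E ^ 2 * CF := by positivity
        linarith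

end Pool.Agent.U996.WA
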