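import Pool.Agent.U996.WA.FullF
import Pool.Agent.U996.WA.Win

/-!
# The family of the averages over the following integers, and almost every dilation
-/

set_option autoImplicit false

namespace Pool.Agent.U996.WA

open Finset MeasureTheory Filter Topology
open scoped ENNReal
open Pool.Agent.H376R2.MR (er)
open Pool.Agent.Y957.AD (er_norm er_add er_zero)
open Pool.Agent.Y957.VK
open Pool.Agent.U996.UW

theorem wneg_cells (P K : ℕ) (L : ℝ) (hL : 0 ≤ L) (C X0 : ℝ) (hC : 0 ≤ C) : ∃ C' : ℝ, 0 ≤ C' ∧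
    ∀ a : ℕ → ℂ, (∀ n, ‖a n‖ ≤ 1) →
      (∀ (x η X : ℝ) (m0 m1 : ℕ), 1 ≤ x → X = Real.exp x → X0 ≤ X → |η| ≤ Real.exp (P * x) →
        X - 1 ≤ m0 → m0 ≤ m1 → (m1 : ℝ) ≤ Real.exp L * X → X / 2 ≤ m1 →
        ‖∑ m ∈ Ico m0 m1, a m * (er η (Real.log m) * ps η m)‖ ≤ C / x ^ K) →
      ∀ x η : ℝ, 1 ≤ x → |η| ≤ Real.exp (P * x) →
        ‖∫ y in (0 : ℝ)..L, a ⌊Real.exp (x + y)⌋₊ * er η y‖ ≤ C' / x ^ K := by
  obtain ⟨E, hE⟩ : ∃ E : ℝ, E = Real.exp L := ⟨_, rfl⟩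
  have hE1 : 1 ≤ E := by rw [hE]; exact Real.one_le_exp hL
  obtain ⟨Y, hY⟩ : ∃ Y : ℝ, Y = max X0 4 := ⟨_, rfl⟩
  have hY4 : 4 ≤ Y := by rw [hY]; exact le_max_right _ _
  have hY0 : 0 < Real.log Y := Real.log_pos (by linarith)
  refine ⟨C + 4 * K.factorial + L * Real.log Y ^ K, by positivity, fun a ha1 hmain x η hx hη => ?_⟩
  have hx0 : 0 < x := by linarith
  have hxK : 0 < x ^ K := by positivity
  obtain ⟨X, hX⟩ : ∃ X : ℝ, X = Real.exp x := ⟨_, rfl⟩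
  have hXpos : 0 < X := by rw [hX]; exact Real.exp_pos _
  rcases lt_or_ge X Y with hs | hs
  · -- small
    have h1 := intervalIntegral.norm_integral_le_of_norm_le_const (a := 0) (b := L) (C := 1)
      (f := fun y => a ⌊Real.exp (x + y)⌋₊ * er η y) (fun y _ => by
        rw [norm_mul, er_norm, mul_one]
        exact ha1 _)
    rw [sub_zero, one_mul, abs_of_nonneg hL] at h1
    refine h1.trans ?_
    rw [le_div_iff₀ hxK]
    have h2 : x ≤ Real.log Y := by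
      have := Real.log_le_log hXpos hs.le
      rwa [hX, Real.log_exp] at this
    have h3 : x ^ K ≤ Real.log Y ^ K := pow_le_pow_left₀ hx0.le h2 K
    have h4 : L * x ^ K ≤ L * Real.log Y ^ K := mul_le_mul_of_nonneg_left h3 hL
    have : 0 ≤ C + 4 * (K.factorial : ℝ) := by positivity
    linarith
  · have hX4 : 4 ≤ X := hY4.trans hs
    have hX0 : X0 ≤ X := (le_max_left _ _).trans (hY ▸ hs)
    obtain ⟨m0, hm0⟩ : ∃ m0 : ℕ, m0 = ⌊X⌋₊ := ⟨_, rfl⟩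
    obtain ⟨m1, hm1⟩ : ∃ m1 : ℕ, m1 = ⌊E * X⌋₊ := ⟨_, rfl⟩
    have hEX : X ≤ E * X := by nlinarith
    have h01 : m0 ≤ m1 := by rw [hm0, hm1]; exact Nat.floor_le_floor hEX
    have a1 : (m0 : ℝ) ≤ X := by rw [hm0]; exact Nat.floor_le hXpos.le
    have a2 : X < m0 + 1 := by rw [hm0]; exact Nat.lt_floor_add_one _
    have b1 : (m1 : ℝ) ≤ E * X := by rw [hm1]; exact Nat.floor_le (by positivity)
    have b2 : E * X < m1 + 1 := by rw [hm1]; exact Nat.lt_floor_add_one _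
    have hm0n : 1 ≤ m0 := by
      rw [hm0]
      exact Nat.le_floor (by push_cast; linarith)
    have h1 := hmain x η X m0 m1 hx hX hX0 hη (by linarith) h01 (by rw [← hE]; exact b1) (by linarith)
    have hxlog : Real.log X = x := by rw [hX, Real.log_exp]
    have hxlog2 : Real.log (E * X) = x + L := by
      rw [Real.log_mul (by positivity) hXpos.ne', hE, Real.log_exp, hxlog]
      ring
    have c0 := log_near hX4 a1 a2
    have c1 := log_near (X := E * X) (m := m1) (by linarith) b1 b2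
    rw [hxlog] at c0
    rw [hxlog2] at c1
    have c2 : 2 / (E * X) ≤ 2 / X := div_le_div_of_nonneg_left (by norm_num) hXpos hEX
    have h2 := cells a ha1 x η hm0n m1 h01
    have h3 : ‖∫ y in (Real.log m0 - x)..(Real.log m1 - x), a ⌊Real.exp (x + y)⌋₊ * er η y‖ ≤
        C / x ^ K := by
      rw [h2, norm_mul, er_norm, one_mul]
      exact h1
    have h4 := intervalIntegral.integral_interval_sub_interval_comm
      (step_ii a ha1 x η 0 L) (step_ii a ha1 x η (Real.log m0 - x) (Real.log m1 - x))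
      (step_ii a ha1 x η 0 (Real.log m0 - x))
    have nb : ∀ u v : ℝ, ‖∫ y in u..v, a ⌊Real.exp (x + y)⌋₊ * er η y‖ ≤ |v - u| := by
      intro u v
      have h5 := intervalIntegral.norm_integral_le_of_norm_le_const (a := u) (b := v) (C := 1)
        (f := fun y => a ⌊Real.exp (x + y)⌋₊ * er η y) (fun y _ => by
          rw [norm_mul, er_norm, mul_one]
          exact ha1 _)
      rwa [one_mul] at h5
    have h6 := nb 0 (Real.log m0 - x)
    have h7 := nb L (Real.log m1 - x)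
    rw [sub_zero] at h6
    have h8 : |Real.log m1 - x - L| ≤ 2 / X := by
      have : Real.log m1 - x - L = Real.log m1 - (x + L) := by ring
      rw [this]
      exact c1.trans c2
    have h9 : ‖∫ y in (0 : ℝ)..L, a ⌊Real.exp (x + y)⌋₊ * er η y‖ ≤ C / x ^ K + 4 / X := by
      have e1 : ∫ y in (0 : ℝ)..L, a ⌊Real.exp (x + y)⌋₊ * er η y =
          (∫ y in (Real.log m0 - x)..(Real.log m1 - x), a ⌊Real.exp (x + y)⌋₊ * er η y) +
          ((∫ y in (0 : ℝ)..(Real.log m0 - x), a ⌊Real.exp (x + y)⌋₊ * er η y) -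
            ∫ y in L..(Real.log m1 - x), a ⌊Real.exp (x + y)⌋₊ * er η y) := by
        rw [← h4]
        ring
      rw [e1]
      refine (norm_add_le _ _).trans ?_
      have h10 := norm_sub_le (∫ y in (0 : ℝ)..(Real.log m0 - x), a ⌊Real.exp (x + y)⌋₊ * er η y)
        (∫ y in L..(Real.log m1 - x), a ⌊Real.exp (x + y)⌋₊ * er η y)
      have e2 : 4 / X = 2 / X + 2 / X := by ring
      linarith
    refine h9.trans ?_
    have h11 := pow_le_fact_exp K hx0.le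
    rw [← hX] at h11
    have h12 : 4 / X ≤ 4 * K.factorial / x ^ K := by
      rw [div_le_div_iff₀ hXpos hxK]
      nlinarith
    have h13 : 0 ≤ L * Real.log Y ^ K / x ^ K := by positivity
    calc C / x ^ K + 4 / X ≤ C / x ^ K + 4 * K.factorial / x ^ K := by linarith
      _ ≤ C / x ^ K + 4 * K.factorial / x ^ K + L * Real.log Y ^ K / x ^ K := by linarith
      _ = _ := by ring

/-- the step function of a sequence -/
noncomputable def stp (a : ℕ → ℂ) (t : ℝ) : ℂ := a ⌊t⌋₊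

theorem stp_var (a : ℕ → ℂ) (ha : ∀ n, ‖a n‖ ≤ 1) (X : ℝ) (hX : 1 ≤ X) :
    eVariationOn (stp a) (Set.Icc 0 X) ≤ ENNReal.ofReal (2 * X ^ (1 : ℝ)) := by
  have hX0 : (0 : ℝ) ≤ X := by linarith
  have hlip : LipschitzOnWith 2 (fun y : ℝ => a ⌊y⌋₊) (Set.range (fun n : ℕ => (n : ℝ))) := by
    rw [lipschitzOnWith_iff_dist_le_mul]
    rintro _ ⟨m, rfl⟩ _ ⟨n, rfl⟩
    simp only [Nat.floor_natCast]
    rcases eq_or_ne m n with h | h
    · subst h; simp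
    · have h1 : (1 : ℝ) ≤ dist (m : ℝ) (n : ℝ) := by
        rw [Real.dist_eq]
        have h2 : (1 : ℤ) ≤ |(m : ℤ) - n| := Int.one_le_abs (sub_ne_zero.2 (by exact_mod_cast h))
        exact_mod_cast h2
      have h3 : dist (a m) (a n) ≤ 2 := by
        rw [dist_eq_norm]
        exact (norm_sub_le _ _).trans (by linarith [ha m, ha n])
      push_cast
      linarith
  have h1 : eVariationOn ((fun y : ℝ => a ⌊y⌋₊) ∘ (fun x : ℝ => ((⌊x⌋₊ : ℕ) : ℝ))) (Set.Icc 0 X) ≤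
      2 * eVariationOn (fun x : ℝ => ((⌊x⌋₊ : ℕ) : ℝ)) (Set.Icc 0 X) :=
    hlip.comp_eVariationOn_le (fun x _ => ⟨⌊x⌋₊, rfl⟩)
  have e1 : (fun y : ℝ => a ⌊y⌋₊) ∘ (fun x : ℝ => ((⌊x⌋₊ : ℕ) : ℝ)) = stp a := by
    funext x
    simp [stp]
  rw [e1] at h1
  refine h1.trans ?_
  have hmono : MonotoneOn (fun x : ℝ => ((⌊x⌋₊ : ℕ) : ℝ)) (Set.Icc 0 X) := fun x _ y _ hxy =>
    Nat.cast_le.2 (Nat.floor_le_floor hxy)
  have h2 := hmono.eVariationOn_eq (s := Set.Icc 0 X) (a := 0) (b := X) (Set.left_mem_Icc.2 hX0)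
    (Set.right_mem_Icc.2 hX0)
  rw [Set.inter_self] at h2
  calc 2 * eVariationOn (fun x : ℝ => ((⌊x⌋₊ : ℕ) : ℝ)) (Set.Icc 0 X) ≤
      2 * ENNReal.ofReal (((⌊X⌋₊ : ℕ) : ℝ) - ((⌊(0 : ℝ)⌋₊ : ℕ) : ℝ)) := by
        gcongr
        exact h2.le
    _ ≤ 2 * ENNReal.ofReal X := by
        gcongr
        rw [Nat.floor_zero, Nat.cast_zero, sub_zero]
        exact Nat.floor_le hX0
    _ = ENNReal.ofReal (2 * X ^ (1 : ℝ)) := by
        rw [Real.rpow_one, ENNReal.ofReal_mul (by norm_num : (0 : ℝ) ≤ 2)]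
        norm_num

/-- the family of the averages -/
def avs (f : ℕ → ℂ) : Set (ℝ → ℂ) := {A | ∃ y : ℕ, 1 ≤ y ∧ A = stp (av f y)}

theorem fam_av (f : ℕ → ℂ) (hf1 : ∀ n, ‖f n‖ ≤ 1) (hf : Neg f) : Fam (avs f) where
  one := by
    rintro A ⟨y, hy, rfl⟩ x
    exact av_le hf1 hy _
  meas := by
    rintro A ⟨y, hy, rfl⟩
    exact (measurable_from_nat (f := av f y)).comp Nat.measurable_floor
  var := by
    refine ⟨2, 1, one_pos, ?_⟩
    rintro A ⟨y, hy, rfl⟩ X hX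
    exact stp_var _ (fun n => av_le hf1 hy n) X hX
  wneg := by
    intro P K L hL
    obtain ⟨C, X0, hC, hcell⟩ := cellw f hf1 hf P K (Real.exp L) (Real.one_le_exp hL)
    obtain ⟨C', hC', h⟩ := wneg_cells P K L hL C X0 hC
    refine ⟨C', hC', ?_⟩
    rintro A ⟨y, hy, rfl⟩ x η hx hη
    exact h (av f y) (fun n => av_le hf1 hy n) (fun x η X m0 m1 => hcell y x η X m0 m1 hy) x η hx hη

/-- **almost every dilation, polynomially many functions and weights at every scale** -/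
theorem ae_f {𝓐 : Set (ℝ → ℂ)} (hF : Fam 𝓐) (c : ℝ) (hc : 0 < c) (b : ℝ) (K D : ℕ) (J : ℕ → ℕ)
    (hJ : ∀ i, (J i : ℝ) ≤ ((i : ℝ) + 1) ^ D) (A : ℕ → ℕ → ℝ → ℂ) (hA : ∀ i j, A i j ∈ 𝓐)
    (w : ℕ → ℕ → ℕ → ℂ) (hw : ∀ i j n, ‖w i j n‖ ≤ 1) :
    ∀ᵐ u ∂((volume : Measure ℝ).restrict (Set.Icc (0 : ℝ) 1)), ∀ᶠ i : ℕ in atTop, ∀ j < J i,
      ∀ M ≤ 2 ^ i, ‖∑ n ∈ Icc 1 M, w i j n * A i j (Real.exp (b + u) * (n : ℝ) ^ c)‖ ≤
        2 ^ i / (i : ℝ) ^ K := by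
  obtain ⟨B, hB⟩ : ∃ B : ℕ, |b| ≤ B := ⟨⌈|b|⌉₊, Nat.le_ceil _⟩
  obtain ⟨C, hC, hmax⟩ := max_f hF c hc (K + D + 2) B
  have hl2 : (0 : ℝ) < Real.log 2 := Real.log_pos (by norm_num)
  have hB0 : (0 : ℝ) ≤ B := Nat.cast_nonneg B
  have hbb := abs_le.1 hB
  have hex : ∀ i j : ℕ, ∃ G : ℝ → ℝ≥0∞, Measurable G ∧
      (∀ u, ∀ M ≤ 2 ^ (i + 1), ‖∑ n ∈ Icc 1 M, w (i + 1) j n *
        A (i + 1) j (Real.exp (b + u) * (n : ℝ) ^ c)‖ₑ ≤ G u) ∧
      ∫⁻ u in Set.Icc (0 : ℝ) 1, G u ≤ ENNReal.ofReal (C * (((2 ^ (i + 1) : ℕ) : ℝ) /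
        Real.log ((2 ^ (i + 1) : ℕ) : ℝ) ^ (K + D + 2))) := by
    intro i j
    have h2 : 2 ≤ 2 ^ (i + 1) := by rw [pow_succ]; have := Nat.one_le_two_pow (n := i); omega
    refine hmax _ (hA (i + 1) j) _ h2 b (by linarith) ?_ _ (hw (i + 1) j)
    have h3 : 0 ≤ Real.log ((2 ^ (i + 1) : ℕ) : ℝ) := Real.log_natCast_nonneg _
    have h4 : (B : ℝ) ≤ B * (1 + Real.log ((2 ^ (i + 1) : ℕ) : ℝ)) :=
      le_mul_of_one_le_right hB0 (by linarith)
    linarith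
  choose G g1 g2 g3 using hex
  have hlogX : ∀ i : ℕ, Real.log ((2 ^ (i + 1) : ℕ) : ℝ) = ((i : ℝ) + 1) * Real.log 2 := fun i => by
    rw [Nat.cast_pow, Real.log_pow, Nat.cast_ofNat]
    push_cast
    ring
  obtain ⟨Q, hQ⟩ : ∃ Q : ℝ, Q = 2 ^ D * C / Real.log 2 ^ (K + D + 2) := ⟨_, rfl⟩
  have hQ0 : 0 ≤ Q := by rw [hQ]; positivity
  obtain ⟨S, hS⟩ : ∃ S : ℕ → ℝ → ℝ≥0∞, S = fun (i : ℕ) (u : ℝ) =>
    ENNReal.ofReal (((i : ℝ) + 1) ^ K / 2 ^ (i + 1)) * ∑ j ∈ range (J (i + 1)), G i j u := ⟨_, rfl⟩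
  have hSm : ∀ i, Measurable (S i) := fun i => by
    rw [hS]
    exact (Finset.measurable_fun_sum _ fun j _ => g1 i j).const_mul _
  have hSI : ∀ i, ∫⁻ u in Set.Icc (0 : ℝ) 1, S i u ≤
      ENNReal.ofReal (Q * (1 / ((i + 1 : ℕ) : ℝ) ^ 2)) := by
    intro i
    rw [hS]
    simp only
    rw [lintegral_const_mul _ (Finset.measurable_fun_sum _ fun j _ => g1 i j),
      lintegral_finsetSum _ fun j _ => g1 i j]
    have h1 : ∑ j ∈ range (J (i + 1)), ∫⁻ u in Set.Icc (0 : ℝ) 1, G i j u ≤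
        ENNReal.ofReal ((J (i + 1) : ℝ) * (C * (((2 ^ (i + 1) : ℕ) : ℝ) /
          Real.log ((2 ^ (i + 1) : ℕ) : ℝ) ^ (K + D + 2)))) := by
      refine (Finset.sum_le_sum fun j _ => g3 i j).trans (le_of_eq ?_)
      rw [Finset.sum_const, card_range, nsmul_eq_mul, ENNReal.ofReal_mul (Nat.cast_nonneg _),
        ENNReal.ofReal_natCast]
    refine (mul_le_mul_right h1 _).trans ?_
    rw [← ENNReal.ofReal_mul (by positivity)]
    apply ENNReal.ofReal_le_ofReal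
    rw [hlogX]
    have h2 := hJ (i + 1)
    push_cast at h2 ⊢
    have hi0 : (0 : ℝ) < (i : ℝ) + 1 := by positivity
    have h3 : ((i : ℝ) + 1 + 1) ^ D ≤ (2 * ((i : ℝ) + 1)) ^ D := by
      apply pow_le_pow_left₀ (by positivity)
      have : (0 : ℝ) ≤ i := Nat.cast_nonneg i
      linarith
    have h4 : (J (i + 1) : ℝ) ≤ (2 * ((i : ℝ) + 1)) ^ D := h2.trans h3
    calc ((i : ℝ) + 1) ^ K / 2 ^ (i + 1) * ((J (i + 1) : ℝ) * (C * (2 ^ (i + 1) /
          (((i : ℝ) + 1) * Real.log 2) ^ (K + D + 2)))) ≤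
          ((i : ℝ) + 1) ^ K / 2 ^ (i + 1) * ((2 * ((i : ℝ) + 1)) ^ D * (C * (2 ^ (i + 1) /
            (((i : ℝ) + 1) * Real.log 2) ^ (K + D + 2)))) := by
          apply mul_le_mul_of_nonneg_left _ (by positivity)
          exact mul_le_mul_of_nonneg_right h4 (by positivity)
      _ = _ := by
          rw [hQ, mul_pow, mul_pow _ (Real.log 2), show K + D + 2 = K + D + 2 from rfl, pow_add _ (K + D) 2,
            pow_add _ K D]
          field_simp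
  have hfin : ∫⁻ u in Set.Icc (0 : ℝ) 1, ∑' i, S i u ≠ ⊤ := by
    rw [lintegral_tsum fun i => (hSm i).aemeasurable]
    refine ne_top_of_le_ne_top ?_ (ENNReal.tsum_le_tsum hSI)
    have h2 : Summable fun i : ℕ => Q * (1 / ((i + 1 : ℕ) : ℝ) ^ 2) := by
      apply Summable.mul_left
      exact (summable_nat_add_iff (f := fun n : ℕ => 1 / (n : ℝ) ^ 2) 1).2
        (Real.summable_one_div_nat_pow.2 one_lt_two)
    exact h2.tsum_ofReal_ne_top
  have hae : ∀ᵐ u ∂((volume : Measure ℝ).restrict (Set.Icc (0 : ℝ) 1)), ∑' i, S i u < ⊤ :=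
    ae_lt_top' (Measurable.ennreal_tsum fun i => hSm i).aemeasurable hfin
  filter_upwards [hae] with u hu
  have ht := ENNReal.tendsto_atTop_zero_of_tsum_ne_top hu.ne
  have hev : ∀ᶠ i : ℕ in atTop, S i u < 1 := ht.eventually (gt_mem_nhds zero_lt_one)
  obtain ⟨i0, hi0⟩ := hev.exists_forall_of_atTop
  refine eventually_atTop.2 ⟨i0 + 1, fun i hi j hj M hM => ?_⟩
  obtain ⟨l, rfl⟩ : ∃ l, i = l + 1 := ⟨i - 1, by omega⟩
  have h1 := hi0 l (by omega)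
  have h2 := g2 l j u M hM
  have h3 : G l j u ≤ ∑ j ∈ range (J (l + 1)), G l j u :=
    Finset.single_le_sum (f := fun j => G l j u) (fun _ _ => bot_le) (mem_range.2 hj)
  rw [← ofReal_norm] at h2
  have h4 : ENNReal.ofReal (((l : ℝ) + 1) ^ K / 2 ^ (l + 1)) * ENNReal.ofReal
      ‖∑ n ∈ Icc 1 M, w (l + 1) j n * A (l + 1) j (Real.exp (b + u) * (n : ℝ) ^ c)‖ < 1 := by
    refine lt_of_le_of_lt (mul_le_mul_right (h2.trans h3) _) ?_
    rw [hS] at h1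
    exact h1
  rw [← ENNReal.ofReal_mul (by positivity), ← ENNReal.ofReal_one,
    ENNReal.ofReal_lt_ofReal_iff one_pos] at h4
  push_cast
  rw [le_div_iff₀ (by positivity)]
  rw [div_mul_eq_mul_div, div_lt_one (by positivity)] at h4
  linarith

end Pool.Agent.U996.WA
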