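import Pool.Agent.U996.WA.Mean

/-!
# The normalised mean tends to one
-/

set_option autoImplicit false

namespace Pool.Agent.U996.WA

open Finset MeasureTheory Filter Topology
open Pool.Agent.U996.UW

theorem pow_small (C : ℝ) (hC : 0 ≤ C) (B : ℕ) (δ e : ℝ) (hδ : 0 < δ) (he : 0 < e) :
    ∀ᶠ N : ℕ in atTop, C * Real.log N ^ B ≤ e * (N : ℝ) ^ δ := by
  have h1 := (isLittleO_log_rpow_rpow_atTop (B : ℝ) hδ).def (c := e / (C + 1)) (by positivity)
  have h2 := tendsto_natCast_atTop_atTop (R := ℝ) |>.eventually h1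
  filter_upwards [h2, eventually_ge_atTop 1] with N hN hN1
  have hN0 : (0 : ℝ) < N := by exact_mod_cast hN1
  have hl := Real.log_natCast_nonneg N
  rw [Real.rpow_natCast, Real.norm_of_nonneg (by positivity), Real.norm_of_nonneg (by positivity),
    div_mul_eq_mul_div, le_div_iff₀ (by positivity)] at hN
  have h3 : 0 ≤ Real.log N ^ B := by positivity
  nlinarith

theorem mean (c : ℝ) (hc : 0 < c) (S : Set ℕ) (a : ℝ) (ha : 0 < a)
    (h : ∀ K B : ℕ, ∀ᶠ N : ℕ in atTop,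
      ∀ y : ℕ → ℕ, (∀ n ∈ Icc 1 N, 1 ≤ y n ∧ y n ≤ N ^ B) →
        (∀ n ∈ Icc 1 N, ∀ m ∈ Icc 1 N, n ≤ m → y n ≤ y m) →
          |∑ n ∈ Icc 1 N, ind S n * de ⌊a * (n : ℝ) ^ c⌋₊ (y n)| ≤ N / Real.log N ^ K)
    (B0 : ℕ) (hS : ∀ᶠ N : ℕ in atTop, (N : ℝ) / Real.log N ^ B0 ≤ ∑ n ∈ Icc 1 N, ind S n)
    (A : ℝ) (ε : ℝ) (hε : 0 < ε) :
    ∀ᶠ N : ℕ in atTop, ∀ y : ℕ → ℕ, (∀ n ∈ Icc 1 N, 1 ≤ y n ∧ (y n : ℝ) ≤ A * (N : ℝ) ^ c) →
      (∀ n ∈ Icc 1 N, ∀ m ∈ Icc 1 N, n ≤ m → y n ≤ y m) →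
        |∑ n ∈ Icc 1 N, ind S n * (sp ⌊a * (n : ℝ) ^ c⌋₊ (y n) *
          Real.log (⌊a * (n : ℝ) ^ c⌋₊ : ℕ) / y n - 1)| ≤ ε * ∑ n ∈ Icc 1 N, ind S n := by
  obtain ⟨δ, hδ⟩ : ∃ δ : ℝ, δ = min (ε / 16) (1 / 6) := ⟨_, rfl⟩
  have hδ0 : 0 < δ := by rw [hδ]; positivity
  have hδ1 : δ ≤ 1 / 6 := by rw [hδ]; exact min_le_right _ _
  have hδ2 : δ ≤ ε / 16 := by rw [hδ]; exact min_le_left _ _
  have hA1 : 0 < a + |A| + 1 := by positivity
  filter_upwards [h (B0 + 2) (⌈c⌉₊ + 1), hS, lx1 a c ha hc, lx2 a c (a + |A| + 1) δ ha hc hA1 hδ0 hδ1,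
    nlog.eventually_ge_atTop (max 1 (8 * c / ε)),
    pow_small (3 * (c + 1)) (by positivity) (B0 + 1) δ (ε / 4) hδ0 (by positivity),
    eventually_ge_atTop (⌈|A|⌉₊ + 1)] with N hN hSN h1 h2 hl hp hNA y hy hm
  have hN1 : 1 ≤ N := by omega
  have hN0 : (0 : ℝ) < N := by exact_mod_cast hN1
  have hN1R : (1 : ℝ) ≤ N := by exact_mod_cast hN1
  have hl1 : 1 ≤ Real.log N := (le_max_left _ _).trans hl
  have hl2 : 8 * c / ε ≤ Real.log N := (le_max_right _ _).trans hl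
  have hl0 : 0 < Real.log N := by linarith
  have hAN : |A| ≤ N := by
    have h3 := Nat.le_ceil |A|
    have h4 : ((⌈|A|⌉₊ + 1 : ℕ) : ℝ) ≤ N := by exact_mod_cast hNA
    push_cast at h4
    linarith
  have hNc : 0 < (N : ℝ) ^ c := by positivity
  have hyN : ∀ n ∈ Icc 1 N, (y n : ℝ) ≤ |A| * (N : ℝ) ^ c := fun n hn =>
    (hy n hn).2.trans (mul_le_mul_of_nonneg_right (le_abs_self A) hNc.le)
  have hT := hN y (fun n hn => by
    refine ⟨(hy n hn).1, ?_⟩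
    have h3 : (y n : ℝ) ≤ ((N ^ (⌈c⌉₊ + 1) : ℕ) : ℝ) := by
      refine (hyN n hn).trans ?_
      push_cast
      rw [pow_succ, mul_comm]
      apply mul_le_mul _ hAN (abs_nonneg _) (by positivity)
      rw [← Real.rpow_natCast]
      exact Real.rpow_le_rpow_of_exponent_le hN1R (Nat.le_ceil c)
    exact_mod_cast h3) hm
  have hxN : ∀ n ∈ Icc 1 N, ((⌊a * (n : ℝ) ^ c⌋₊ : ℕ) : ℝ) ≤ a * (N : ℝ) ^ c := by
    intro n hn
    rw [Finset.mem_Icc] at hn
    have hn0 : (0 : ℝ) < n := by exact_mod_cast hn.1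
    have hnN : (n : ℝ) ≤ N := by exact_mod_cast hn.2
    refine (Nat.floor_le (by positivity)).trans ?_
    exact mul_le_mul_of_nonneg_left (Real.rpow_le_rpow hn0.le hnN hc.le) ha.le
  have hmain := mean_bd S N (c * Real.log N) δ ((N : ℝ) ^ (1 - δ)) (N / Real.log N ^ (B0 + 2))
    (by positivity) hδ0.le (by linarith) (by positivity) (fun n => ⌊a * (n : ℝ) ^ c⌋₊) y
    (fun n hn => (hy n hn).1) h1 (fun n hn hX => by
      have h3 := h2 n hn hX
      have hx := hxN n hn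
      refine ⟨(h3 _ le_rfl ?_).1, fun k hk => (h3 _ (Nat.le_add_right _ _) ?_).2⟩
      · refine hx.trans (mul_le_mul_of_nonneg_right ?_ hNc.le)
        have := abs_nonneg A
        linarith
      · rw [Finset.mem_Icc] at hk
        have h4 : (k : ℝ) ≤ y n := by exact_mod_cast hk.2
        have h5 := hyN n hn
        push_cast
        nlinarith) hT
  refine hmain.trans ?_
  obtain ⟨s, hs⟩ : ∃ s, s = ∑ n ∈ Icc 1 N, ind S n := ⟨_, rfl⟩
  rw [← hs] at hSN ⊢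
  have hs0 : 0 ≤ s := le_trans (by positivity) hSN
  have h3 : 8 * δ * s ≤ ε / 2 * s := mul_le_mul_of_nonneg_right (by linarith) hs0
  have h4 : 2 * (c * Real.log N * (N / Real.log N ^ (B0 + 2))) ≤ ε / 4 * s := by
    calc 2 * (c * Real.log N * (N / Real.log N ^ (B0 + 2))) =
          2 * c / Real.log N * (N / Real.log N ^ B0) := by
          rw [pow_add]
          field_simp
      _ ≤ ε / 4 * (N / Real.log N ^ B0) := by
          apply mul_le_mul_of_nonneg_right _ (by positivity)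
          rw [div_le_iff₀ hl0]
          rw [div_le_iff₀ hε] at hl2
          linarith
      _ ≤ _ := mul_le_mul_of_nonneg_left hSN (by positivity)
  have h5 : 3 * (c * Real.log N + 1) * (N : ℝ) ^ (1 - δ) ≤ ε / 4 * s := by
    have h6 : 3 * (c * Real.log N + 1) ≤ 3 * (c + 1) * Real.log N := by nlinarith
    have h7 : 3 * (c * Real.log N + 1) * Real.log N ^ B0 ≤ ε / 4 * (N : ℝ) ^ δ := by
      refine le_trans ?_ hp
      calc 3 * (c * Real.log N + 1) * Real.log N ^ B0 ≤ 3 * (c + 1) * Real.log N * Real.log N ^ B0 :=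
            mul_le_mul_of_nonneg_right h6 (by positivity)
        _ = _ := by rw [pow_succ]; ring
    have h8 : 3 * (c * Real.log N + 1) * (N : ℝ) ^ (1 - δ) ≤ ε / 4 * (N / Real.log N ^ B0) := by
      rw [mul_div_assoc', le_div_iff₀ (by positivity)]
      calc 3 * (c * Real.log N + 1) * (N : ℝ) ^ (1 - δ) * Real.log N ^ B0 =
            3 * (c * Real.log N + 1) * Real.log N ^ B0 * (N : ℝ) ^ (1 - δ) := by ring
        _ ≤ ε / 4 * (N : ℝ) ^ δ * (N : ℝ) ^ (1 - δ) :=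
            mul_le_mul_of_nonneg_right h7 (by positivity)
        _ = ε / 4 * N := by
            rw [mul_assoc, ← Real.rpow_add hN0]
            norm_num
    exact h8.trans (mul_le_mul_of_nonneg_left hSN (by positivity))
  linarith

end Pool.Agent.U996.WA
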