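import Pool.Agent.U996.WA.Fam

/-!
# The full and the maximal mean square, uniform in a family of functions
-/

set_option autoImplicit false

namespace Pool.Agent.U996.WA

open Finset MeasureTheory Filter Topology
open scoped ENNReal
open Pool.Agent.Y957.AD (PolyVar)
open Pool.Agent.Y957.VK
open Pool.Agent.U996.UW Pool.Agent.U996.EH

theorem full_f {𝓐 : Set (ℝ → ℂ)} (hF : Fam 𝓐)
    (c : ℝ) (hc : 0 < c) (K B : ℕ) : ∃ C : ℝ, 0 ≤ C ∧ ∀ A ∈ 𝓐, ∀ M0 : ℕ, 2 ≤ M0 →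
      ∀ b : ℝ, -(B : ℝ) ≤ b → b ≤ B * (1 + Real.log M0) → ∀ w : ℕ → ℂ, (∀ n, ‖w n‖ ≤ 1) →
        ∫⁻ u in Set.Icc (0 : ℝ) 1, ‖∑ n ∈ Icc 1 M0, w n * A (Real.exp (b + u) * (n : ℝ) ^ c)‖ₑ ^ 2 ≤
          ENNReal.ofReal (C * (M0 ^ 2 / Real.log M0 ^ K)) := by
  obtain ⟨Cb, hCb, hblk⟩ := block_f hF c hc K (4 * B)
  obtain ⟨C', hC'⟩ : ∃ C' : ℝ, C' = Cb * 4 ^ K := ⟨_, rfl⟩
  have hC'0 : 0 ≤ C' := by rw [hC']; positivity
  refine ⟨2 * C' + 4 * (K.factorial / (1 / 2) ^ K) + 81 ^ K, by positivity, ?_⟩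
  intro A hAA M0 hM0 b hb1 hb2 w hw
  have hA1 := hF.one A hAA
  have hAm := hF.meas A hAA
  have hM0r : (2 : ℝ) ≤ M0 := by exact_mod_cast hM0
  have hMp : (0 : ℝ) < M0 := by linarith
  obtain ⟨ℓ, hℓ⟩ : ∃ ℓ : ℝ, ℓ = Real.log M0 := ⟨_, rfl⟩
  have hℓ0 : 0 < ℓ := by rw [hℓ]; exact Real.log_pos (by linarith)
  have hℓK : 0 < ℓ ^ K := by positivity
  rw [← hℓ] at hb2 ⊢
  have hB0 : (0 : ℝ) ≤ B := Nat.cast_nonneg B
  rcases lt_or_ge M0 81 with hs | hs
  · have h1 := triv_sum A hA1 (Icc 1 M0) w hw fun u n => Real.exp (b + u) * (n : ℝ) ^ c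
    refine h1.trans (ENNReal.ofReal_le_ofReal ?_)
    rw [Nat.card_Icc, Nat.add_sub_cancel, mul_div_assoc', le_div_iff₀ hℓK]
    have h2 : ℓ ≤ 81 := by
      rw [hℓ]
      refine (Real.log_le_self (by linarith)).trans ?_
      exact_mod_cast hs.le
    have h3 : ℓ ^ K ≤ 81 ^ K := pow_le_pow_left₀ hℓ0.le h2 K
    have h4 : (M0 : ℝ) ^ 2 * ℓ ^ K ≤ (M0 : ℝ) ^ 2 * 81 ^ K :=
      mul_le_mul_of_nonneg_left h3 (by positivity)
    have h5 : 0 ≤ (2 * C' + 4 * (K.factorial / (1 / 2) ^ K)) * (M0 : ℝ) ^ 2 := by positivity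
    refine h4.trans ?_
    rw [show (2 * C' + 4 * (K.factorial / (1 / 2) ^ K) + 81 ^ K) * (M0 : ℝ) ^ 2 =
      (2 * C' + 4 * (K.factorial / (1 / 2) ^ K)) * (M0 : ℝ) ^ 2 + (M0 : ℝ) ^ 2 * 81 ^ K by ring]
    exact le_add_of_nonneg_left h5
  have h81 : (81 : ℝ) ≤ M0 := by exact_mod_cast hs
  obtain ⟨s, hsdef⟩ : ∃ s : ℝ, s = Real.sqrt M0 := ⟨_, rfl⟩
  have hs9 : 9 ≤ s := by
    rw [hsdef]
    refine Real.le_sqrt_of_sq_le ?_
    norm_num
    linarith
  have hss : s * s = M0 := by rw [hsdef]; exact Real.mul_self_sqrt hMp.le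
  have hlogs : Real.log s = ℓ / 2 := by
    rw [hsdef, Real.log_sqrt hMp.le, hℓ]
  have hℓ4 : 4 * Real.log 2 ≤ ℓ := by
    rw [hℓ, show 4 * Real.log 2 = Real.log (2 ^ 4) by rw [Real.log_pow]; push_cast; ring]
    exact Real.log_le_log (by norm_num) (by norm_num; linarith)
  have key : ∀ M : ℕ, 2 ≤ M → M ≤ M0 →
      ∫⁻ u in Set.Icc (0 : ℝ) 1, ‖∑ n ∈ Icc 1 M, w n * A (Real.exp (b + u) * (n : ℝ) ^ c)‖ₑ ^ 2 ≤
        ENNReal.ofReal (2 * C' * (M ^ 2 / ℓ ^ K) + 4 * (M - 1) * s) := by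
    intro M
    induction M using Nat.strong_induction_on with
    | _ M ih =>
      intro hM2 hMM
      have hM2r : (2 : ℝ) ≤ M := by exact_mod_cast hM2
      rcases le_or_gt (M : ℝ) s with hMs | hMs
      · have h1 := triv_sum A hA1 (Icc 1 M) w hw fun u n => Real.exp (b + u) * (n : ℝ) ^ c
        refine h1.trans (ENNReal.ofReal_le_ofReal ?_)
        rw [Nat.card_Icc, Nat.add_sub_cancel]
        have h2 : 0 ≤ 2 * C' * ((M : ℝ) ^ 2 / ℓ ^ K) := by positivity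
        have h3 : (M : ℝ) ^ 2 ≤ 4 * (M - 1) * s := by
          calc (M : ℝ) ^ 2 = M * M := by ring
            _ ≤ (4 * (M - 1)) * s := mul_le_mul (by linarith) hMs (by linarith) (by linarith)
        linarith
      · obtain ⟨M1, hM1⟩ : ∃ M1 : ℕ, M1 = (M + 1) / 2 := ⟨_, rfl⟩
        have hM9 : (9 : ℝ) ≤ M := by linarith
        have hM9' : 9 ≤ M := by exact_mod_cast hM9
        have g1 : M ≤ 2 * M1 := by omega
        have g2 : 2 * M1 ≤ M + 1 := by omega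
        have g3 : 2 ≤ M1 := by omega
        have g4 : M1 < M := by omega
        have g1r : (M : ℝ) ≤ 2 * M1 := by exact_mod_cast g1
        have g2r : 2 * (M1 : ℝ) ≤ M + 1 := by exact_mod_cast g2
        have hM1p : (0 : ℝ) < M1 := by linarith
        have hl1 : ℓ / 4 ≤ Real.log M1 := by
          have h1 : Real.log (s / 2) ≤ Real.log M1 := Real.log_le_log (by linarith) (by linarith)
          rw [Real.log_div (by linarith) (by norm_num), hlogs] at h1
          linarith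
        have hb3 : b ≤ ((4 * B : ℕ) : ℝ) * (1 + Real.log M1) := by
          push_cast
          have h1 : (B : ℝ) * (1 + ℓ) ≤ B * (4 * (1 + Real.log M1)) :=
            mul_le_mul_of_nonneg_left (by linarith) hB0
          linarith
        have hb4 : -((4 * B : ℕ) : ℝ) ≤ b := by
          push_cast
          linarith
        have h1 := ih M1 g4 g3 (g4.le.trans hMM)
        have h2 := hblk A hAA M1 M g3 g4.le g1 b hb4 hb3 w hw
        have e1 : ∀ u : ℝ, ∑ n ∈ Icc 1 M, w n * A (Real.exp (b + u) * (n : ℝ) ^ c) =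
            ∑ n ∈ Icc 1 M1, w n * A (Real.exp (b + u) * (n : ℝ) ^ c) +
            ∑ n ∈ Ioc M1 M, w n * A (Real.exp (b + u) * (n : ℝ) ^ c) := by
          intro u
          have e2 : Icc 1 M = Ioc 0 M := rfl
          have e3 : Icc 1 M1 = Ioc 0 M1 := rfl
          rw [e2, e3]
          exact (Finset.sum_Ioc_consecutive _ (Nat.zero_le _) g4.le).symm
        have hm1 : Measurable fun u : ℝ =>
            2 * ‖∑ n ∈ Icc 1 M1, w n * A (Real.exp (b + u) * (n : ℝ) ^ c)‖ₑ ^ 2 := by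
          refine Measurable.const_mul (Measurable.pow_const (Measurable.enorm ?_) 2) 2
          refine Finset.measurable_fun_sum _ fun n _ => measurable_const.mul (hAm.comp ?_)
          exact (Real.measurable_exp.comp (measurable_const.add measurable_id)).mul measurable_const
        have h3 : Cb * (M1 : ℝ) ^ 2 / Real.log M1 ^ K ≤ C' * (M1 ^ 2 / ℓ ^ K) := by
          have h4 : (ℓ / 4) ^ K ≤ Real.log M1 ^ K := pow_le_pow_left₀ (by positivity) hl1 K
          calc Cb * (M1 : ℝ) ^ 2 / Real.log M1 ^ K ≤ Cb * (M1 : ℝ) ^ 2 / (ℓ / 4) ^ K :=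
                div_le_div_of_nonneg_left (by positivity) (by positivity) h4
            _ = _ := by
                rw [hC', div_pow]
                field_simp
        have hMsq : (M1 : ℝ) ^ 2 ≤ 25 / 81 * (M : ℝ) ^ 2 := by
          have h4 : (M1 : ℝ) ≤ 5 / 9 * M := by linarith
          calc (M1 : ℝ) ^ 2 ≤ (5 / 9 * M) ^ 2 := pow_le_pow_left₀ hM1p.le h4 2
            _ = _ := by ring
        calc ∫⁻ u in Set.Icc (0 : ℝ) 1,
              ‖∑ n ∈ Icc 1 M, w n * A (Real.exp (b + u) * (n : ℝ) ^ c)‖ₑ ^ 2 ≤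
              ∫⁻ u in Set.Icc (0 : ℝ) 1,
                (2 * ‖∑ n ∈ Icc 1 M1, w n * A (Real.exp (b + u) * (n : ℝ) ^ c)‖ₑ ^ 2 +
                  2 * ‖∑ n ∈ Ioc M1 M, w n * A (Real.exp (b + u) * (n : ℝ) ^ c)‖ₑ ^ 2) := by
              refine lintegral_mono fun u => ?_
              show ‖∑ n ∈ Icc 1 M, w n * A (Real.exp (b + u) * (n : ℝ) ^ c)‖ₑ ^ 2 ≤ _
              rw [e1]
              exact enorm_add_sq _ _
          _ = 2 * (∫⁻ u in Set.Icc (0 : ℝ) 1,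
                ‖∑ n ∈ Icc 1 M1, w n * A (Real.exp (b + u) * (n : ℝ) ^ c)‖ₑ ^ 2) +
              2 * ∫⁻ u in Set.Icc (0 : ℝ) 1,
                ‖∑ n ∈ Ioc M1 M, w n * A (Real.exp (b + u) * (n : ℝ) ^ c)‖ₑ ^ 2 := by
              rw [lintegral_add_left hm1, lintegral_const_mul' _ _ (by norm_num),
                lintegral_const_mul' _ _ (by norm_num)]
          _ ≤ 2 * ENNReal.ofReal (2 * C' * (M1 ^ 2 / ℓ ^ K) + 4 * (M1 - 1) * s) +
              2 * ENNReal.ofReal (C' * (M1 ^ 2 / ℓ ^ K)) := by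
              gcongr
              exact h2.trans (ENNReal.ofReal_le_ofReal h3)
          _ = ENNReal.ofReal (2 * (2 * C' * (M1 ^ 2 / ℓ ^ K) + 4 * (M1 - 1) * s) +
              2 * (C' * (M1 ^ 2 / ℓ ^ K))) := by
              have h2a : ∀ a : ℝ, 2 * ENNReal.ofReal a = ENNReal.ofReal (2 * a) := fun a => by
                rw [ENNReal.ofReal_mul (by norm_num), ENNReal.ofReal_ofNat]
              have hM1' : (1 : ℝ) ≤ M1 := by linarith
              have : 0 ≤ 4 * ((M1 : ℝ) - 1) * s := by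
                have : 0 ≤ (M1 : ℝ) - 1 := by linarith
                positivity
              rw [h2a, h2a, ← ENNReal.ofReal_add (by positivity) (by positivity)]
          _ ≤ _ := by
              apply ENNReal.ofReal_le_ofReal
              have h5 : (M1 : ℝ) ^ 2 / ℓ ^ K ≤ 25 / 81 * ((M : ℝ) ^ 2 / ℓ ^ K) := by
                rw [mul_div_assoc']
                exact div_le_div_of_nonneg_right hMsq hℓK.le
              have h6 : 6 * C' * ((M1 : ℝ) ^ 2 / ℓ ^ K) ≤ 6 * C' * (25 / 81 * ((M : ℝ) ^ 2 / ℓ ^ K)) :=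
                mul_le_mul_of_nonneg_left h5 (by positivity)
              have h7 : 0 ≤ C' * ((M : ℝ) ^ 2 / ℓ ^ K) := by positivity
              have h8 : (2 * ((M1 : ℝ) - 1)) * s ≤ (M - 1) * s :=
                mul_le_mul_of_nonneg_right (by linarith) (by linarith)
              linarith
  refine (key M0 hM0 le_rfl).trans (ENNReal.ofReal_le_ofReal ?_)
  have h1 := log_pow_le_rpow K (δ := 1 / 2) (by norm_num) (show (1 : ℝ) ≤ M0 by linarith)
  rw [← Real.sqrt_eq_rpow, ← hsdef, ← hℓ] at h1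
  have h2 : (M0 : ℝ) * s ≤ K.factorial / (1 / 2) ^ K * ((M0 : ℝ) ^ 2 / ℓ ^ K) := by
    rw [mul_div_assoc', le_div_iff₀ hℓK]
    calc (M0 : ℝ) * s * ℓ ^ K ≤ (M0 : ℝ) * s * (K.factorial / (1 / 2) ^ K * s) :=
          mul_le_mul_of_nonneg_left h1 (by positivity)
      _ = K.factorial / (1 / 2) ^ K * (M0 * (s * s)) := by ring
      _ = _ := by rw [hss]; ring
  have h3 : 4 * ((M0 : ℝ) - 1) * s ≤ 4 * (M0 * s) := by nlinarith
  have h4 : 0 ≤ (81 : ℝ) ^ K * ((M0 : ℝ) ^ 2 / ℓ ^ K) := by positivity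
  calc 2 * C' * ((M0 : ℝ) ^ 2 / ℓ ^ K) + 4 * ((M0 : ℝ) - 1) * s ≤
        2 * C' * ((M0 : ℝ) ^ 2 / ℓ ^ K) + 4 * (K.factorial / (1 / 2) ^ K * ((M0 : ℝ) ^ 2 / ℓ ^ K)) := by
        linarith
    _ ≤ 2 * C' * ((M0 : ℝ) ^ 2 / ℓ ^ K) + 4 * (K.factorial / (1 / 2) ^ K * ((M0 : ℝ) ^ 2 / ℓ ^ K)) +
        (81 : ℝ) ^ K * ((M0 : ℝ) ^ 2 / ℓ ^ K) := by linarith
    _ = _ := by ring



theorem max_f {𝓐 : Set (ℝ → ℂ)} (hF : Fam 𝓐)
    (c : ℝ) (hc : 0 < c) (K B : ℕ) : ∃ C : ℝ, 0 ≤ C ∧ ∀ A ∈ 𝓐, ∀ M0 : ℕ, 2 ≤ M0 →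
      ∀ b : ℝ, -(B : ℝ) ≤ b → b ≤ B * (1 + Real.log M0) → ∀ w : ℕ → ℂ, (∀ n, ‖w n‖ ≤ 1) →
        ∃ G : ℝ → ℝ≥0∞, Measurable G ∧
          (∀ u, ∀ M ≤ M0, ‖∑ n ∈ Icc 1 M, w n * A (Real.exp (b + u) * (n : ℝ) ^ c)‖ₑ ≤ G u) ∧
          ∫⁻ u in Set.Icc (0 : ℝ) 1, G u ≤ ENNReal.ofReal (C * (M0 / Real.log M0 ^ K)) := by
  obtain ⟨C, hC, hfull⟩ := full_f hF c hc (4 * K) B
  have hl2 : (0 : ℝ) < Real.log 2 := Real.log_pos (by norm_num)
  refine ⟨(1 + 2 / Real.log 2 ^ K) * (C + 1) + 1 + K.factorial, by positivity, ?_⟩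
  intro A hAA M0 hM0 b hb1 hb2 w hw
  have hA1 := hF.one A hAA
  have hAm := hF.meas A hAA
  have hM0r : (2 : ℝ) ≤ M0 := by exact_mod_cast hM0
  have hMp : (0 : ℝ) < M0 := by linarith
  obtain ⟨ℓ, hℓ⟩ : ∃ ℓ : ℝ, ℓ = Real.log M0 := ⟨_, rfl⟩
  have hℓ2 : Real.log 2 ≤ ℓ := by rw [hℓ]; exact Real.log_le_log (by norm_num) hM0r
  have hℓ0 : 0 < ℓ := by linarith
  have hℓK : 0 < ℓ ^ K := by positivity
  obtain ⟨J, hJ⟩ : ∃ J : ℕ, J = ⌈ℓ ^ K⌉₊ := ⟨_, rfl⟩
  have hJ0 : 0 < J := by rw [hJ]; exact Nat.ceil_pos.2 hℓK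
  have hJr : (0 : ℝ) < J := by exact_mod_cast hJ0
  have hJ1 : ℓ ^ K ≤ J := by rw [hJ]; exact Nat.le_ceil _
  have hJ2 : (J : ℝ) ≤ ℓ ^ K + 1 := by rw [hJ]; exact (Nat.ceil_lt_add_one hℓK.le).le
  obtain ⟨S, hS⟩ : ∃ S : ℕ → ℝ → ℂ, S = fun M u =>
    ∑ n ∈ Icc 1 M, w n * A (Real.exp (b + u) * (n : ℝ) ^ c) := ⟨_, rfl⟩
  have hSm : ∀ M, Measurable (S M) := by
    intro M
    rw [hS]
    refine Finset.measurable_fun_sum _ fun n _ => measurable_const.mul (hAm.comp ?_)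
    exact (Real.measurable_exp.comp (measurable_const.add measurable_id)).mul measurable_const
  have hSI : ∀ M ≤ M0, ∫⁻ u in Set.Icc (0 : ℝ) 1, ‖S M u‖ₑ ^ 2 ≤
      ENNReal.ofReal (C * (M0 ^ 2 / ℓ ^ (4 * K))) := by
    intro M hM
    have h1 := hfull A hAA M0 hM0 b hb1 hb2 (fun n => if n ≤ M then w n else 0) (fun n => by
      show ‖if n ≤ M then w n else 0‖ ≤ 1
      split_ifs
      · exact hw n
      · simp)
    rw [← hℓ] at h1
    refine le_trans (le_of_eq ?_) h1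
    refine lintegral_congr fun u => ?_
    congr 2
    rw [hS]
    show ∑ n ∈ Icc 1 M, w n * A (Real.exp (b + u) * (n : ℝ) ^ c) =
      ∑ n ∈ Icc 1 M0, (if n ≤ M then w n else 0) * A (Real.exp (b + u) * (n : ℝ) ^ c)
    simp only [ite_mul, zero_mul]
    rw [← Finset.sum_filter]
    apply Finset.sum_congr _ fun _ _ => rfl
    ext n
    simp only [mem_Icc, mem_filter]
    omega
  refine ⟨fun u => (∑ j ∈ range (J + 1), ‖S (j * M0 / J) u‖ₑ) + ENNReal.ofReal (M0 / J + 1), ?_, ?_, ?_⟩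
  · refine Measurable.add_const (Finset.measurable_fun_sum _ fun j _ => (hSm _).enorm) _
  · intro u M hM
    obtain ⟨j, hj, hj1, hj2⟩ := grid_pt M0 J M (by omega) hJ0 hM
    have e1 : S M u = S (j * M0 / J) u +
        ∑ n ∈ Ioc (j * M0 / J) M, w n * A (Real.exp (b + u) * (n : ℝ) ^ c) := by
      rw [hS]
      have e2 : Icc 1 M = Ioc 0 M := rfl
      have e3 : Icc 1 (j * M0 / J) = Ioc 0 (j * M0 / J) := rfl
      show ∑ n ∈ Icc 1 M, _ = ∑ n ∈ Icc 1 (j * M0 / J), _ + _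
      rw [e2, e3]
      exact (Finset.sum_Ioc_consecutive _ (Nat.zero_le _) hj1).symm
    have e4 : ∑ n ∈ Icc 1 M, w n * A (Real.exp (b + u) * (n : ℝ) ^ c) = S M u := by rw [hS]
    rw [e4, e1]
    refine (enorm_add_le _ _).trans (add_le_add ?_ ?_)
    · exact Finset.single_le_sum (f := fun j => ‖S (j * M0 / J) u‖ₑ) (fun _ _ => bot_le) hj
    · rw [← ofReal_norm]
      apply ENNReal.ofReal_le_ofReal
      refine le_trans ?_ hj2
      refine (norm_sum_le _ _).trans ?_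
      have h1 : ∑ n ∈ Ioc (j * M0 / J) M, ‖w n * A (Real.exp (b + u) * (n : ℝ) ^ c)‖ ≤
          ∑ _n ∈ Ioc (j * M0 / J) M, (1 : ℝ) := by
        refine Finset.sum_le_sum fun n _ => ?_
        rw [norm_mul]
        exact mul_le_one₀ (hw n) (norm_nonneg _) (hA1 _)
      refine h1.trans (le_of_eq ?_)
      rw [Finset.sum_const, nsmul_eq_mul, mul_one, Nat.card_Ioc, Nat.cast_sub hj1]
  · rw [lintegral_add_right _ measurable_const, lintegral_const, Measure.restrict_apply_univ,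
      Real.volume_Icc, sub_zero, ENNReal.ofReal_one, mul_one,
      lintegral_finsetSum _ fun j _ => (hSm _).enorm]
    obtain ⟨lam, hlam⟩ : ∃ lam : ℝ, lam = ℓ ^ (2 * K) / M0 := ⟨_, rfl⟩
    have hlam0 : 0 < lam := by rw [hlam]; positivity
    have h1 : ∀ j ∈ range (J + 1), ∫⁻ u in Set.Icc (0 : ℝ) 1, ‖S (j * M0 / J) u‖ₑ ≤
        ENNReal.ofReal ((C + 1) * (M0 / ℓ ^ (2 * K))) := by
      intro j hj
      have hjM : j * M0 / J ≤ M0 := by
        rw [mem_range, Nat.lt_succ_iff] at hj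
        calc j * M0 / J ≤ J * M0 / J := Nat.div_le_div_right (Nat.mul_le_mul_right _ hj)
          _ = M0 := Nat.mul_div_cancel_left _ hJ0
      calc ∫⁻ u in Set.Icc (0 : ℝ) 1, ‖S (j * M0 / J) u‖ₑ ≤
            ∫⁻ u in Set.Icc (0 : ℝ) 1, (ENNReal.ofReal lam * ‖S (j * M0 / J) u‖ₑ ^ 2 +
              ENNReal.ofReal (1 / lam)) := lintegral_mono fun u => enn_sq _ lam hlam0
        _ = ENNReal.ofReal lam * (∫⁻ u in Set.Icc (0 : ℝ) 1, ‖S (j * M0 / J) u‖ₑ ^ 2) +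
              ENNReal.ofReal (1 / lam) := by
            rw [lintegral_add_right _ measurable_const, lintegral_const, Measure.restrict_apply_univ,
              Real.volume_Icc, sub_zero, ENNReal.ofReal_one, mul_one,
              lintegral_const_mul _ ((hSm _).enorm.pow_const 2)]
        _ ≤ ENNReal.ofReal lam * ENNReal.ofReal (C * (M0 ^ 2 / ℓ ^ (4 * K))) +
              ENNReal.ofReal (1 / lam) := by
            gcongr
            exact hSI _ hjM
        _ = ENNReal.ofReal (lam * (C * (M0 ^ 2 / ℓ ^ (4 * K))) + 1 / lam) := by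
            rw [← ENNReal.ofReal_mul hlam0.le, ← ENNReal.ofReal_add (by positivity) (by positivity)]
        _ = _ := by
            congr 1
            rw [hlam, show 4 * K = 2 * K + 2 * K by ring, pow_add]
            field_simp
    calc (∑ j ∈ range (J + 1), ∫⁻ u in Set.Icc (0 : ℝ) 1, ‖S (j * M0 / J) u‖ₑ) +
          ENNReal.ofReal (M0 / J + 1) ≤
          (∑ _j ∈ range (J + 1), ENNReal.ofReal ((C + 1) * (M0 / ℓ ^ (2 * K)))) +
          ENNReal.ofReal (M0 / J + 1) := by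
          gcongr with j hj
          exact h1 j hj
      _ = ENNReal.ofReal (((J : ℝ) + 1) * ((C + 1) * (M0 / ℓ ^ (2 * K))) + (M0 / J + 1)) := by
          have e5 : (((J + 1 : ℕ) : ℝ≥0∞)) = ENNReal.ofReal ((J : ℝ) + 1) := by
            rw [← ENNReal.ofReal_natCast]
            push_cast
            rfl
          have h7 : 0 ≤ (C + 1) * ((M0 : ℝ) / ℓ ^ (2 * K)) := by positivity
          have h8 : 0 ≤ (M0 : ℝ) / J + 1 := by positivity
          rw [Finset.sum_const, card_range, nsmul_eq_mul, e5,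
            ENNReal.ofReal_add (mul_nonneg (by positivity) h7) h8,
            ENNReal.ofReal_mul (show 0 ≤ (J : ℝ) + 1 by positivity)]
      _ ≤ _ := by
          apply ENNReal.ofReal_le_ofReal
          rw [← hℓ]
          have h2 : (J : ℝ) + 1 ≤ (1 + 2 / Real.log 2 ^ K) * ℓ ^ K := by
            have h3 : Real.log 2 ^ K ≤ ℓ ^ K := pow_le_pow_left₀ hl2.le hℓ2 K
            have h4 : 2 ≤ 2 / Real.log 2 ^ K * ℓ ^ K := by
              rw [div_mul_eq_mul_div, le_div_iff₀ (by positivity)]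
              linarith
            linarith
          have h3 : ((J : ℝ) + 1) * ((C + 1) * (M0 / ℓ ^ (2 * K))) ≤
              (1 + 2 / Real.log 2 ^ K) * (C + 1) * (M0 / ℓ ^ K) := by
            calc ((J : ℝ) + 1) * ((C + 1) * (M0 / ℓ ^ (2 * K))) ≤
                  ((1 + 2 / Real.log 2 ^ K) * ℓ ^ K) * ((C + 1) * (M0 / ℓ ^ (2 * K))) :=
                  mul_le_mul_of_nonneg_right h2 (by positivity)
              _ = _ := by
                  rw [show 2 * K = K + K by ring, pow_add]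
                  field_simp
          have h4 : (M0 : ℝ) / J ≤ M0 / ℓ ^ K := div_le_div_of_nonneg_left hMp.le hℓK hJ1
          have h5 : 1 ≤ K.factorial * ((M0 : ℝ) / ℓ ^ K) := by
            have h6 := log_pow_le_rpow K (δ := 1) (by norm_num) (show (1 : ℝ) ≤ M0 by linarith)
            rw [Real.rpow_one, one_pow, div_one, ← hℓ] at h6
            rw [mul_div_assoc', le_div_iff₀ hℓK]
            linarith
          have e : ((1 + 2 / Real.log 2 ^ K) * (C + 1) + 1 + K.factorial) * ((M0 : ℝ) / ℓ ^ K) =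
            (1 + 2 / Real.log 2 ^ K) * (C + 1) * (M0 / ℓ ^ K) + M0 / ℓ ^ K +
              K.factorial * (M0 / ℓ ^ K) := by ring
          rw [e]
          linarith

end Pool.Agent.U996.WA
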