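import Pool.Agent.U996.WA.FamW
import Pool.Agent.U996.UW.Dyn

/-!
# All lengths from a grid of lengths
-/

set_option autoImplicit false

namespace Pool.Agent.U996.WA

open Finset MeasureTheory Filter Topology
open Pool.Agent.U996.UW

open Classical in
/-- the indicator of a set -/
noncomputable def ind (S : Set ℕ) (n : ℕ) : ℝ := if n ∈ S then 1 else 0

/-- the primes -/
noncomputable def pr (n : ℕ) : ℝ := if n.Prime then 1 else 0

/-- the density of the primes -/
noncomputable def rr (n : ℕ) : ℝ := if n ≤ 2 then 0 else 1 / Real.log n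

/-- the number of primes among the `y` integers that follow `m` -/
noncomputable def sp (m y : ℕ) : ℝ := ∑ h ∈ Icc 1 y, pr (m + h)

/-- the expected number of primes among the `y` integers that follow `m` -/
noncomputable def sr (m y : ℕ) : ℝ := ∑ h ∈ Icc 1 y, rr (m + h)

theorem ind_nonneg (S : Set ℕ) (n : ℕ) : 0 ≤ ind S n := by
  unfold ind
  split_ifs <;> norm_num

theorem ind_le (S : Set ℕ) (n : ℕ) : ind S n ≤ 1 := by
  unfold ind
  split_ifs <;> norm_num

theorem pr_nonneg (n : ℕ) : 0 ≤ pr n := by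
  unfold pr
  split_ifs <;> norm_num

theorem pr_le (n : ℕ) : pr n ≤ 1 := by
  unfold pr
  split_ifs <;> norm_num

theorem rr_nonneg (n : ℕ) : 0 ≤ rr n := by
  unfold rr
  split_ifs with h
  · exact le_rfl
  · have := log_ge (n := n) (by omega)
    positivity

theorem rr_le (n : ℕ) : rr n ≤ 1 := by
  unfold rr
  split_ifs with h
  · norm_num
  · have h1 := log_ge (n := n) (by omega)
    rw [div_le_one (by linarith)]
    exact h1

theorem f_eq (n : ℕ) : pI n - pR n = ((pr n - rr n : ℝ) : ℂ) := by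
  unfold pI pR pr rr
  push_cast
  congr 1 <;> split_ifs <;> simp

theorem av_eq (y m : ℕ) : av (fun n => pI n - pR n) y m =
    ((1 / (y : ℝ) * (sp m y - sr m y) : ℝ) : ℂ) := by
  unfold av sp sr
  rw [← Finset.sum_sub_distrib]
  push_cast
  congr 1
  refine Finset.sum_congr rfl fun h _ => ?_
  rw [f_eq]
  push_cast
  ring

theorem sub_Icc {a b : ℕ} (hab : a ≤ b) (f : ℕ → ℝ) :
    ∑ h ∈ Icc 1 b, f h - ∑ h ∈ Icc 1 a, f h = ∑ h ∈ Ioc a b, f h := by
  induction b, hab using Nat.le_induction with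
  | base => simp
  | succ b hb ih =>
    rw [Finset.sum_Icc_succ_top (by omega), Finset.sum_Ioc_succ_top (by omega), ← ih]
    ring

theorem sp_mono (m : ℕ) {a b : ℕ} (hab : a ≤ b) : sp m a ≤ sp m b := by
  have h := sub_Icc hab (fun h => pr (m + h))
  have h2 : 0 ≤ ∑ h ∈ Ioc a b, pr (m + h) := Finset.sum_nonneg fun h _ => pr_nonneg _
  unfold sp
  linarith

theorem sr_mono (m : ℕ) {a b : ℕ} (hab : a ≤ b) : sr m a ≤ sr m b := by
  have h := sub_Icc hab (fun h => rr (m + h))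
  have h2 : 0 ≤ ∑ h ∈ Ioc a b, rr (m + h) := Finset.sum_nonneg fun h _ => rr_nonneg _
  unfold sr
  linarith

theorem sr_diff (m : ℕ) {a b : ℕ} (hab : a ≤ b) : sr m b - sr m a ≤ (b : ℝ) - a := by
  have h := sub_Icc hab (fun h => rr (m + h))
  have h2 : ∑ h ∈ Ioc a b, rr (m + h) ≤ ∑ _h ∈ Ioc a b, (1 : ℝ) :=
    Finset.sum_le_sum fun h _ => rr_le _
  rw [Finset.sum_const, Nat.card_Ioc, nsmul_eq_mul, mul_one, Nat.cast_sub hab] at h2
  unfold sr
  linarith

theorem sr_nonneg (m y : ℕ) : 0 ≤ sr m y := Finset.sum_nonneg fun h _ => rr_nonneg _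

theorem sp_nonneg (m y : ℕ) : 0 ≤ sp m y := Finset.sum_nonneg fun h _ => pr_nonneg _

theorem sp_le (m y : ℕ) : sp m y ≤ y := by
  unfold sp
  refine (Finset.sum_le_sum fun h _ => pr_le (m + h)).trans (le_of_eq ?_)
  rw [Finset.sum_const, Nat.card_Icc, nsmul_eq_mul, mul_one, Nat.add_sub_cancel]

theorem sr_le (m y : ℕ) : sr m y ≤ y := by
  unfold sr
  refine (Finset.sum_le_sum fun h _ => rr_le (m + h)).trans (le_of_eq ?_)
  rw [Finset.sum_const, Nat.card_Icc, nsmul_eq_mul, mul_one, Nat.add_sub_cancel]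

/-- the grid of lengths -/
noncomputable def gr (q : ℕ) (j : ℕ) : ℕ := ⌊(1 + 1 / (q : ℝ)) ^ j⌋₊

theorem gr_zero (q : ℕ) : gr q 0 = 1 := by
  unfold gr
  simp

theorem gr_one_le (q j : ℕ) : 1 ≤ gr q j := by
  unfold gr
  apply Nat.le_floor
  rw [Nat.cast_one]
  exact one_le_pow₀ (by
    have : (0 : ℝ) ≤ 1 / q := by positivity
    linarith)

theorem gr_big (q l : ℕ) (hq : 1 ≤ q) : 2 ^ l ≤ gr q (q * l) := by
  unfold gr
  apply Nat.le_floor
  have hq0 : (0 : ℝ) < q := by exact_mod_cast hq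
  have h1 : (2 : ℝ) ≤ (1 + 1 / (q : ℝ)) ^ q := by
    have h := one_add_mul_le_pow (a := 1 / (q : ℝ)) (by
      have : (0 : ℝ) ≤ 1 / q := by positivity
      linarith) q
    have e : (q : ℝ) * (1 / (q : ℝ)) = 1 := by field_simp
    linarith
  rw [pow_mul]
  push_cast
  exact pow_le_pow_left₀ (by norm_num) h1 l

theorem gr_step (q j : ℕ) (hq : 2 ≤ q) : gr q (j + 1) ≤ gr q j + 1 ∨
    ((gr q (j + 1) : ℕ) : ℝ) - gr q j ≤ 4 * gr q j / q := by
  have hq0 : (0 : ℝ) < q := by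
    have : (2 : ℝ) ≤ q := by exact_mod_cast hq
    linarith
  have hq2 : (2 : ℝ) ≤ q := by exact_mod_cast hq
  obtain ⟨t, ht⟩ : ∃ t : ℝ, t = (1 + 1 / (q : ℝ)) ^ j := ⟨_, rfl⟩
  have ht1 : 1 ≤ t := by
    rw [ht]
    exact one_le_pow₀ (by
      have : (0 : ℝ) ≤ 1 / q := by positivity
      linarith)
  have e : (1 + 1 / (q : ℝ)) ^ (j + 1) = t + t / q := by
    rw [pow_succ, ← ht]
    ring
  unfold gr
  rw [e, ← ht]
  rcases lt_or_ge t q with h | h
  · left
    have h1 : t / q ≤ 1 := by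
      rw [div_le_one hq0]
      exact h.le
    calc ⌊t + t / q⌋₊ ≤ ⌊t + 1⌋₊ := Nat.floor_le_floor (by linarith)
      _ = ⌊t⌋₊ + 1 := Nat.floor_add_one (by linarith)
  · right
    have h1 : ((⌊t + t / q⌋₊ : ℕ) : ℝ) ≤ t + t / q := Nat.floor_le (by positivity)
    have h2 : t < (⌊t⌋₊ : ℝ) + 1 := Nat.lt_floor_add_one t
    have h3 : 1 ≤ t / q := by
      rw [le_div_iff₀ hq0]
      linarith
    have h4 : t / 2 ≤ ⌊t⌋₊ := by linarith
    have h5 : 2 * (t / q) ≤ 4 * (⌊t⌋₊ : ℝ) / q := by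
      rw [← mul_div_assoc]
      apply div_le_div_of_nonneg_right _ hq0.le
      linarith
    linarith

theorem sandwich (S : Set ℕ) (x : ℕ → ℕ) (N q J : ℕ) (η : ℝ) (hη : 0 ≤ η) (hq : 2 ≤ q)
    (h : ∀ j ≤ J, |∑ n ∈ Icc 1 N, ind S n * (sp (x n) (gr q j) - sr (x n) (gr q j))| ≤ gr q j * η)
    (y : ℕ) (hy : 1 ≤ y) (hyJ : y < gr q J) :
    |∑ n ∈ Icc 1 N, ind S n * (sp (x n) y - sr (x n) y)| ≤ y * (5 * η + 4 * N / q) := by
  have hex : ∃ j, y < gr q j := ⟨J, hyJ⟩
  have hf := Nat.find_spec hex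
  have hm := fun k => Nat.find_min hex (m := k)
  have hJ := Nat.find_min' hex hyJ
  obtain ⟨j0, hj0⟩ : ∃ j0, j0 = Nat.find hex := ⟨_, rfl⟩
  rw [← hj0] at hf hm hJ
  have hne : j0 ≠ 0 := by
    rintro rfl
    rw [gr_zero] at hf
    omega
  obtain ⟨j, rfl⟩ : ∃ j, j0 = j + 1 := ⟨j0 - 1, by omega⟩
  have hlow : gr q j ≤ y := not_lt.1 (hm j (by omega))
  have hq2 : (2 : ℝ) ≤ q := by exact_mod_cast hq
  have hq0 : (0 : ℝ) < q := by linarith
  have hN0 : (0 : ℝ) ≤ N := Nat.cast_nonneg N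
  have hy0 : (0 : ℝ) ≤ y := Nat.cast_nonneg y
  have hlowR : ((gr q j : ℕ) : ℝ) ≤ y := by exact_mod_cast hlow
  have hX : 0 ≤ 4 * (N : ℝ) / q := by positivity
  rcases gr_step q j hq with h1 | h1
  · have e : y = gr q j := by omega
    have h2 := h j (by omega)
    rw [← e] at h2
    refine h2.trans ?_
    apply mul_le_mul_of_nonneg_left _ hy0
    linarith
  · have ha := h j (by omega)
    have hb := h (j + 1) hJ
    obtain ⟨F, hF⟩ : ∃ F : ℕ → ℝ, F = fun y => ∑ n ∈ Icc 1 N, ind S n * sp (x n) y := ⟨_, rfl⟩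
    obtain ⟨G, hG⟩ : ∃ G : ℕ → ℝ, G = fun y => ∑ n ∈ Icc 1 N, ind S n * sr (x n) y := ⟨_, rfl⟩
    have hFG : ∀ y, ∑ n ∈ Icc 1 N, ind S n * (sp (x n) y - sr (x n) y) = F y - G y := by
      intro y
      rw [hF, hG]
      simp only
      rw [← Finset.sum_sub_distrib]
      exact Finset.sum_congr rfl fun n _ => by ring
    rw [hFG] at ha hb ⊢
    have hFm : ∀ {a b : ℕ}, a ≤ b → F a ≤ F b := fun {a b} hab => by
      rw [hF]
      exact Finset.sum_le_sum fun n _ => mul_le_mul_of_nonneg_left (sp_mono _ hab) (ind_nonneg S n)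
    have hGm : ∀ {a b : ℕ}, a ≤ b → G a ≤ G b := fun {a b} hab => by
      rw [hG]
      exact Finset.sum_le_sum fun n _ => mul_le_mul_of_nonneg_left (sr_mono _ hab) (ind_nonneg S n)
    have hGd : ∀ {a b : ℕ}, a ≤ b → G b - G a ≤ N * ((b : ℝ) - a) := fun {a b} hab => by
      have hab' : (0 : ℝ) ≤ (b : ℝ) - a := by
        have : (a : ℝ) ≤ b := by exact_mod_cast hab
        linarith
      rw [hG]
      simp only
      rw [← Finset.sum_sub_distrib]
      have h2 : ∑ n ∈ Icc 1 N, (ind S n * sr (x n) b - ind S n * sr (x n) a) ≤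
          ∑ _n ∈ Icc 1 N, ((b : ℝ) - a) := by
        refine Finset.sum_le_sum fun n _ => ?_
        rw [← mul_sub]
        have h3 := sr_diff (x n) hab
        have h4 := sr_mono (x n) hab
        calc ind S n * (sr (x n) b - sr (x n) a) ≤ 1 * (sr (x n) b - sr (x n) a) :=
              mul_le_mul_of_nonneg_right (ind_le S n) (by linarith)
          _ ≤ _ := by linarith
      refine h2.trans (le_of_eq ?_)
      rw [Finset.sum_const, Nat.card_Icc, nsmul_eq_mul, Nat.add_sub_cancel]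
    have h01 : gr q j ≤ gr q (j + 1) := by omega
    have h2 := hFm hlow
    have h3 := hFm hf.le
    have h4 := hGm hlow
    have h5 := hGm hf.le
    have h6 := hGd h01
    have h7 : (N : ℝ) * (((gr q (j + 1) : ℕ) : ℝ) - gr q j) ≤ y * (4 * N / q) := by
      calc (N : ℝ) * (((gr q (j + 1) : ℕ) : ℝ) - gr q j) ≤ N * (4 * gr q j / q) :=
            mul_le_mul_of_nonneg_left h1 hN0
        _ ≤ N * (4 * y / q) := by
            apply mul_le_mul_of_nonneg_left _ hN0
            apply div_le_div_of_nonneg_right _ hq0.le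
            linarith
        _ = _ := by ring
    have h8 : ((gr q (j + 1) : ℕ) : ℝ) ≤ 5 * y := by
      have h9 : 4 * ((gr q j : ℕ) : ℝ) / q ≤ 4 * y := by
        rw [div_le_iff₀ hq0]
        nlinarith
      linarith
    have h9 : ((gr q (j + 1) : ℕ) : ℝ) * η ≤ 5 * y * η := mul_le_mul_of_nonneg_right h8 hη
    have h10 : ((gr q j : ℕ) : ℝ) * η ≤ y * η := mul_le_mul_of_nonneg_right hlowR hη
    have h11 : 0 ≤ (y : ℝ) * η := mul_nonneg hy0 hη
    have ha' := abs_le.1 ha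
    have hb' := abs_le.1 hb
    have e : (y : ℝ) * (5 * η + 4 * N / q) = 5 * y * η + y * (4 * N / q) := by ring
    rw [e, abs_le]
    constructor
    · linarith
    · linarith

end Pool.Agent.U996.WA
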