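import Pool.Agent.U996.WA.Mono
import Pool.Agent.U996.UW.Asym

/-!
# The normalised mean
-/

set_option autoImplicit false

namespace Pool.Agent.U996.WA

open Finset MeasureTheory Filter Topology
open Pool.Agent.U996.UW

theorem L_tend (c : ℝ) (hc : 0 < c) : Tendsto (fun N : ℕ => c * Real.log N) atTop atTop :=
  Tendsto.const_mul_atTop hc nlog

theorem lx1 (a c : ℝ) (ha : 0 < a) (hc : 0 < c) : ∀ᶠ N : ℕ in atTop, ∀ n ∈ Icc 1 N,
    |Real.log ((⌊a * (n : ℝ) ^ c⌋₊ : ℕ) : ℝ) - c * Real.log N| ≤ c * Real.log N := by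
  filter_upwards [(L_tend c hc).eventually_ge_atTop |Real.log a|] with N hN n hn
  rw [Finset.mem_Icc] at hn
  have hn0 : (0 : ℝ) < n := by exact_mod_cast hn.1
  have hnN : (n : ℝ) ≤ N := by exact_mod_cast hn.2
  have hLa := le_abs_self (Real.log a)
  have hL0 : 0 ≤ c * Real.log N := (abs_nonneg _).trans hN
  have h0 := Real.log_natCast_nonneg ⌊a * (n : ℝ) ^ c⌋₊
  have h1 : Real.log ((⌊a * (n : ℝ) ^ c⌋₊ : ℕ) : ℝ) ≤ 2 * (c * Real.log N) := by
    rcases Nat.eq_zero_or_pos ⌊a * (n : ℝ) ^ c⌋₊ with h | h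
    · rw [h, Nat.cast_zero, Real.log_zero]
      positivity
    · have h2 : ((⌊a * (n : ℝ) ^ c⌋₊ : ℕ) : ℝ) ≤ a * (n : ℝ) ^ c := Nat.floor_le (by positivity)
      have h3 := Real.log_le_log (by exact_mod_cast h) h2
      rw [Real.log_mul ha.ne' (by positivity), Real.log_rpow hn0] at h3
      have h4 : c * Real.log n ≤ c * Real.log N :=
        mul_le_mul_of_nonneg_left (Real.log_le_log hn0 hnN) hc.le
      linarith
  rw [abs_le]
  constructor <;> linarith

theorem lx2 (a c A δ : ℝ) (ha : 0 < a) (hc : 0 < c) (hA : 0 < A) (hδ : 0 < δ) (hδ1 : δ ≤ 1 / 6) :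
    ∀ᶠ N : ℕ in atTop, ∀ n ∈ Icc 1 N, (N : ℝ) ^ (1 - δ) ≤ n → ∀ m : ℕ,
      ⌊a * (n : ℝ) ^ c⌋₊ ≤ m → (m : ℝ) ≤ A * (N : ℝ) ^ c →
        |Real.log m - c * Real.log N| ≤ 2 * δ * (c * Real.log N) ∧
          |c * Real.log N * rr m - 1| ≤ 3 * δ := by
  filter_upwards [(L_tend c hc).eventually_ge_atTop ((|Real.log (a / 2)| + |Real.log A| + 2) / δ),
    eventually_ge_atTop 1] with N hN hN1 n hn hX m hm1 hm2
  obtain ⟨L, hL⟩ : ∃ L, L = c * Real.log N := ⟨_, rfl⟩
  rw [← hL] at hN ⊢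
  rw [div_le_iff₀ hδ] at hN
  rw [Finset.mem_Icc] at hn
  have hNpos : (0 : ℝ) < N := by exact_mod_cast hN1
  have hn0 : (0 : ℝ) < n := by exact_mod_cast hn.1
  have h1 := neg_abs_le (Real.log (a / 2))
  have h2 := le_abs_self (Real.log A)
  have h3 := abs_nonneg (Real.log (a / 2))
  have h4 := abs_nonneg (Real.log A)
  have hL0 : 0 < L := by
    by_contra hneg
    push Not at hneg
    have : L * δ ≤ 0 := mul_nonpos_of_nonpos_of_nonneg hneg hδ.le
    linarith
  have hδL : L * δ ≤ L * (1 / 6) := mul_le_mul_of_nonneg_left hδ1 hL0.le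
  have hlogn : (1 - δ) * L ≤ c * Real.log n := by
    have h := Real.log_le_log (by positivity) hX
    rw [Real.log_rpow hNpos] at h
    have h5 := mul_le_mul_of_nonneg_left h hc.le
    have e : (1 - δ) * L = c * ((1 - δ) * Real.log N) := by rw [hL]; ring
    rw [e]
    exact h5
  have ha2 : 0 < a / 2 := by positivity
  have hpos : 0 < a / 2 * (n : ℝ) ^ c := by positivity
  have elog : Real.log (a / 2 * (n : ℝ) ^ c) = Real.log (a / 2) + c * Real.log n := by
    rw [Real.log_mul ha2.ne' (by positivity), Real.log_rpow hn0]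
  have h3le : 3 ≤ a / 2 * (n : ℝ) ^ c := by
    have h5 : (2 : ℝ) ≤ Real.log (a / 2 * (n : ℝ) ^ c) := by
      rw [elog]
      nlinarith
    have h6 := Real.add_one_le_exp (2 : ℝ)
    have h7 := Real.exp_le_exp.2 h5
    rw [Real.exp_log hpos] at h7
    linarith
  have hmlow : a / 2 * (n : ℝ) ^ c ≤ m := by
    have h5 : a * (n : ℝ) ^ c < (⌊a * (n : ℝ) ^ c⌋₊ : ℝ) + 1 := Nat.lt_floor_add_one _
    have h6 : ((⌊a * (n : ℝ) ^ c⌋₊ : ℕ) : ℝ) ≤ m := by exact_mod_cast hm1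
    have e : a * (n : ℝ) ^ c = 2 * (a / 2 * (n : ℝ) ^ c) := by ring
    rw [e] at h5
    rw [e] at h6
    linarith
  have hm3R : (3 : ℝ) ≤ m := h3le.trans hmlow
  have hm3 : 3 ≤ m := by exact_mod_cast hm3R
  have hmlog1 : (1 - 2 * δ) * L ≤ Real.log m := by
    have h5 := Real.log_le_log hpos hmlow
    rw [elog] at h5
    nlinarith
  have hmlog2 : Real.log m ≤ L + δ * L := by
    have h5 := Real.log_le_log (by linarith) hm2
    rw [Real.log_mul hA.ne' (by positivity), Real.log_rpow hNpos, ← hL] at h5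
    linarith
  have habs : |Real.log m - L| ≤ 2 * δ * L := by
    have : 0 ≤ δ * L := by positivity
    rw [abs_le]
    constructor <;> nlinarith
  refine ⟨habs, ?_⟩
  have hlm0 : 0 < Real.log m := by
    have : 0 < (1 - 2 * δ) * L := mul_pos (by linarith) hL0
    linarith
  unfold rr
  rw [if_neg (by omega)]
  have e : L * (1 / Real.log m) - 1 = -((Real.log m - L) / Real.log m) := by
    field_simp
    ring
  rw [e, abs_neg, abs_div, abs_of_pos hlm0, div_le_iff₀ hlm0]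
  refine habs.trans ?_
  have h5 : 3 * δ * ((1 - 2 * δ) * L) ≤ 3 * δ * Real.log m :=
    mul_le_mul_of_nonneg_left hmlog1 (by positivity)
  have h6 : 0 ≤ δ * L * (1 - 6 * δ) := mul_nonneg (by positivity) (by linarith)
  nlinarith

theorem cnt_lt (N : ℕ) (X : ℝ) (hX : 0 ≤ X) :
    ∑ n ∈ Icc 1 N, (if (n : ℝ) < X then (1 : ℝ) else 0) ≤ X := by
  rw [Finset.sum_boole]
  have h : (Icc 1 N).filter (fun n : ℕ => (n : ℝ) < X) ⊆ Icc 1 ⌊X⌋₊ := by
    intro n hn
    rw [Finset.mem_filter, Finset.mem_Icc] at hn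
    exact Finset.mem_Icc.2 ⟨hn.1.1, Nat.le_floor hn.2.le⟩
  have h2 := Finset.card_le_card h
  rw [Nat.card_Icc, Nat.add_sub_cancel] at h2
  exact (Nat.cast_le.2 h2).trans (Nat.floor_le hX)

theorem mean_bd (S : Set ℕ) (N : ℕ) (L δ X T : ℝ) (hL : 0 ≤ L) (hδ : 0 ≤ δ) (hδ1 : 2 * δ ≤ 1)
    (hX : 0 ≤ X) (x y : ℕ → ℕ) (hy : ∀ n ∈ Icc 1 N, 1 ≤ y n)
    (h1 : ∀ n ∈ Icc 1 N, |Real.log (x n) - L| ≤ L)
    (h2 : ∀ n ∈ Icc 1 N, X ≤ n → |Real.log (x n) - L| ≤ 2 * δ * L ∧
      ∀ h ∈ Icc 1 (y n), |L * rr (x n + h) - 1| ≤ 3 * δ)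
    (h3 : |∑ n ∈ Icc 1 N, ind S n * de (x n) (y n)| ≤ T) :
    |∑ n ∈ Icc 1 N, ind S n * (sp (x n) (y n) * Real.log (x n) / y n - 1)| ≤
      2 * (L * T) + 8 * δ * ∑ n ∈ Icc 1 N, ind S n + 3 * (L + 1) * X := by
  obtain ⟨s, hs⟩ : ∃ s, s = ∑ n ∈ Icc 1 N, ind S n := ⟨_, rfl⟩
  obtain ⟨D, hD⟩ : ∃ D, D = ∑ n ∈ Icc 1 N, ind S n * de (x n) (y n) := ⟨_, rfl⟩
  obtain ⟨r, hr⟩ : ∃ r : ℕ → ℝ, r = fun n => L * (sr (x n) (y n) / y n) - 1 := ⟨_, rfl⟩
  obtain ⟨q, hq⟩ : ∃ q : ℕ → ℝ, q = fun n => sp (x n) (y n) / y n * (Real.log (x n) - L) := ⟨_, rfl⟩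
  obtain ⟨b, hb⟩ : ∃ b : ℕ → ℝ, b = fun (n : ℕ) => if (n : ℝ) < X then (1 : ℝ) else 0 := ⟨_, rfl⟩
  have hb0 : ∀ n, 0 ≤ b n := fun n => by
    rw [hb]
    simp only
    split_ifs <;> norm_num
  have hbs : ∑ n ∈ Icc 1 N, b n ≤ X := by
    rw [hb]
    exact cnt_lt N X hX
  have hs0 : 0 ≤ s := by
    rw [hs]
    exact Finset.sum_nonneg fun n _ => ind_nonneg S n
  have hyp : ∀ n ∈ Icc 1 N, (0 : ℝ) < y n := fun n hn => by exact_mod_cast hy n hn
  have hr1 : ∀ n ∈ Icc 1 N, |r n| ≤ 3 * δ + b n * (L + 1) := by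
    intro n hn
    have hy0 := hyp n hn
    have e : r n = (1 / (y n : ℝ)) * ∑ h ∈ Icc 1 (y n), (L * rr (x n + h) - 1) := by
      rw [hr, Finset.sum_sub_distrib, ← Finset.mul_sum, Finset.sum_const, Nat.card_Icc,
        nsmul_eq_mul, mul_one, Nat.add_sub_cancel]
      simp only
      unfold sr
      field_simp
    have hbd : ∀ Y : ℝ, (∀ h ∈ Icc 1 (y n), |L * rr (x n + h) - 1| ≤ Y) → |r n| ≤ Y := by
      intro Y hY
      rw [e, abs_mul, abs_of_pos (by positivity)]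
      have h4 : |∑ h ∈ Icc 1 (y n), (L * rr (x n + h) - 1)| ≤ y n * Y := by
        refine (Finset.abs_sum_le_sum_abs _ _).trans ?_
        refine (Finset.sum_le_sum hY).trans (le_of_eq ?_)
        rw [Finset.sum_const, Nat.card_Icc, nsmul_eq_mul, Nat.add_sub_cancel]
      calc 1 / (y n : ℝ) * |∑ h ∈ Icc 1 (y n), (L * rr (x n + h) - 1)| ≤ 1 / (y n : ℝ) * (y n * Y) :=
            mul_le_mul_of_nonneg_left h4 (by positivity)
        _ = Y := by field_simp
    by_cases hn2 : (n : ℝ) < X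
    · have eb : b n = 1 := by rw [hb]; simp only; rw [if_pos hn2]
      rw [eb, one_mul]
      refine hbd _ fun h _ => ?_
      have h5 := rr_nonneg (x n + h)
      have h6 := rr_le (x n + h)
      have h7 : 0 ≤ L * rr (x n + h) := mul_nonneg hL h5
      have h8 : L * rr (x n + h) ≤ L * 1 := mul_le_mul_of_nonneg_left h6 hL
      rw [abs_le]
      constructor <;> linarith
    · have eb : b n = 0 := by rw [hb]; simp only; rw [if_neg hn2]
      rw [eb, zero_mul, add_zero]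
      exact hbd _ (h2 n hn (not_lt.1 hn2)).2
  have hp : ∀ n ∈ Icc 1 N, 0 ≤ sp (x n) (y n) / y n ∧ sp (x n) (y n) / y n ≤ 1 := by
    intro n hn
    have hy0 := hyp n hn
    refine ⟨div_nonneg (sp_nonneg _ _) hy0.le, ?_⟩
    rw [div_le_one hy0]
    exact sp_le _ _
  have hq1 : ∀ n ∈ Icc 1 N, |q n| ≤ 2 * δ * (L * de (x n) (y n) + r n + 1) + b n * L := by
    intro n hn
    have hy0 := hyp n hn
    have hpn := hp n hn
    have e : L * de (x n) (y n) + r n + 1 = L * (sp (x n) (y n) / y n) := by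
      rw [hr]
      unfold de
      ring
    rw [e, hq]
    simp only
    rw [abs_mul, abs_of_nonneg hpn.1]
    by_cases hn2 : (n : ℝ) < X
    · have eb : b n = 1 := by rw [hb]; simp only; rw [if_pos hn2]
      rw [eb, one_mul]
      have h5 := h1 n hn
      have h6 : sp (x n) (y n) / y n * |Real.log (x n) - L| ≤ 1 * L :=
        mul_le_mul hpn.2 h5 (abs_nonneg _) zero_le_one
      have h7 : 0 ≤ 2 * δ * (L * (sp (x n) (y n) / y n)) := by
        have := hpn.1
        positivity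
      linarith
    · have eb : b n = 0 := by rw [hb]; simp only; rw [if_neg hn2]
      rw [eb, zero_mul, add_zero]
      have h5 := (h2 n hn (not_lt.1 hn2)).1
      calc sp (x n) (y n) / y n * |Real.log (x n) - L| ≤ sp (x n) (y n) / y n * (2 * δ * L) :=
            mul_le_mul_of_nonneg_left h5 hpn.1
        _ = _ := by ring
  have hR : |∑ n ∈ Icc 1 N, ind S n * r n| ≤ 3 * δ * s + (L + 1) * X := by
    refine (Finset.abs_sum_le_sum_abs _ _).trans ?_
    have h4 : ∑ n ∈ Icc 1 N, |ind S n * r n| ≤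
        ∑ n ∈ Icc 1 N, (3 * δ * ind S n + (L + 1) * b n) := by
      refine Finset.sum_le_sum fun n hn => ?_
      rw [abs_mul, abs_of_nonneg (ind_nonneg S n)]
      have h5 := mul_le_mul_of_nonneg_left (hr1 n hn) (ind_nonneg S n)
      have h6 : ind S n * (b n * (L + 1)) ≤ 1 * (b n * (L + 1)) :=
        mul_le_mul_of_nonneg_right (ind_le S n) (mul_nonneg (hb0 n) (by linarith))
      linarith
    refine h4.trans ?_
    rw [Finset.sum_add_distrib, ← Finset.mul_sum, ← Finset.mul_sum, ← hs]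
    have := mul_le_mul_of_nonneg_left hbs (show 0 ≤ L + 1 by linarith)
    linarith
  have hQ : |∑ n ∈ Icc 1 N, ind S n * q n| ≤ 2 * δ * (L * T + (3 * δ * s + (L + 1) * X) + s) + L * X := by
    refine (Finset.abs_sum_le_sum_abs _ _).trans ?_
    have h4 : ∑ n ∈ Icc 1 N, |ind S n * q n| ≤
        ∑ n ∈ Icc 1 N, (2 * δ * (L * (ind S n * de (x n) (y n)) + ind S n * r n + ind S n) + L * b n) := by
      refine Finset.sum_le_sum fun n hn => ?_
      rw [abs_mul, abs_of_nonneg (ind_nonneg S n)]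
      have h5 := mul_le_mul_of_nonneg_left (hq1 n hn) (ind_nonneg S n)
      have h6 : ind S n * (b n * L) ≤ 1 * (b n * L) :=
        mul_le_mul_of_nonneg_right (ind_le S n) (mul_nonneg (hb0 n) hL)
      calc ind S n * |q n| ≤ ind S n * (2 * δ * (L * de (x n) (y n) + r n + 1) + b n * L) := h5
        _ = 2 * δ * (L * (ind S n * de (x n) (y n)) + ind S n * r n + ind S n) +
            ind S n * (b n * L) := by ring
        _ ≤ _ := by linarith
    refine h4.trans ?_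
    rw [Finset.sum_add_distrib, ← Finset.mul_sum, ← Finset.mul_sum, Finset.sum_add_distrib,
      Finset.sum_add_distrib, ← Finset.mul_sum, ← hs, ← hD]
    have h5 := mul_le_mul_of_nonneg_left hbs hL
    have h6 : L * D ≤ L * T := mul_le_mul_of_nonneg_left ((le_abs_self D).trans (by rw [hD]; exact h3)) hL
    have h7 := (le_abs_self (∑ n ∈ Icc 1 N, ind S n * r n)).trans hR
    have h8 : 2 * δ * (L * D + ∑ n ∈ Icc 1 N, ind S n * r n + s) ≤
        2 * δ * (L * T + (3 * δ * s + (L + 1) * X) + s) :=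
      mul_le_mul_of_nonneg_left (by linarith) (by linarith)
    linarith
  have hT0 : 0 ≤ T := (abs_nonneg _).trans h3
  have e : ∑ n ∈ Icc 1 N, ind S n * (sp (x n) (y n) * Real.log (x n) / y n - 1) =
      ∑ n ∈ Icc 1 N, ind S n * q n + L * D + ∑ n ∈ Icc 1 N, ind S n * r n := by
    rw [hD, Finset.mul_sum, ← Finset.sum_add_distrib, ← Finset.sum_add_distrib]
    refine Finset.sum_congr rfl fun n _ => ?_
    rw [hq, hr]
    unfold de
    ring
  rw [e, ← hs]
  have h9 : |L * D| ≤ L * T := by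
    rw [abs_mul, abs_of_nonneg hL]
    exact mul_le_mul_of_nonneg_left (by rw [hD]; exact h3) hL
  have h10 := abs_add_le (∑ n ∈ Icc 1 N, ind S n * q n + L * D) (∑ n ∈ Icc 1 N, ind S n * r n)
  have h11 := abs_add_le (∑ n ∈ Icc 1 N, ind S n * q n) (L * D)
  have h12 : 0 ≤ (1 - 2 * δ) * (L * T + (3 * δ * s + (L + 1) * X)) := by
    apply mul_nonneg (by linarith)
    have : 0 ≤ L + 1 := by linarith
    positivity
  have h13 : 0 ≤ X := hX
  nlinarith

end Pool.Agent.U996.WA
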