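import Pool.Agent.U996.WA.Grid

/-!
# Monotone sequences of lengths
-/

set_option autoImplicit false

namespace Pool.Agent.U996.WA

open Finset MeasureTheory Filter Topology
open Pool.Agent.U996.UW

theorem init_seg (N : ℕ) (p : ℕ → Prop) [DecidablePred p]
    (hp : ∀ n ∈ Icc 1 N, ∀ m ∈ Icc 1 N, n ≤ m → p m → p n) :
    ∃ M ≤ N, (Icc 1 N).filter p = Icc 1 M := by
  induction N with
  | zero => exact ⟨0, le_rfl, by simp⟩
  | succ N ih =>
    obtain ⟨M, hM, h⟩ := ih fun n hn m hm hnm h => by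
      rw [Finset.mem_Icc] at hn hm
      exact hp n (Finset.mem_Icc.2 ⟨hn.1, by omega⟩) m (Finset.mem_Icc.2 ⟨hm.1, by omega⟩) hnm h
    by_cases hN : p (N + 1)
    · refine ⟨N + 1, le_rfl, ?_⟩
      rw [Finset.filter_eq_self]
      intro n hn
      exact hp n hn (N + 1) (Finset.mem_Icc.2 ⟨by omega, le_rfl⟩) (Finset.mem_Icc.1 hn).2 hN
    · refine ⟨M, by omega, ?_⟩
      rw [← h]
      ext n
      simp only [Finset.mem_filter, Finset.mem_Icc]
      constructor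
      · rintro ⟨⟨h1, h2⟩, h3⟩
        have : n ≠ N + 1 := by
          rintro rfl
          exact hN h3
        exact ⟨⟨h1, by omega⟩, h3⟩
      · rintro ⟨⟨h1, h2⟩, h3⟩
        exact ⟨⟨h1, by omega⟩, h3⟩

theorem mono_sum (N J : ℕ) (idx : ℕ → ℕ) (hidx : ∀ n ∈ Icc 1 N, idx n < J)
    (hm : ∀ n ∈ Icc 1 N, ∀ m ∈ Icc 1 N, n ≤ m → idx n ≤ idx m) (v : ℕ → ℕ → ℝ) (η : ℝ)
    (h : ∀ j < J, ∀ M ≤ N, |∑ n ∈ Icc 1 M, v n j| ≤ η) :
    |∑ n ∈ Icc 1 N, v n (idx n)| ≤ J * (2 * η) := by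
  have hseg : ∀ t : ℕ, ∃ M ≤ N, (Icc 1 N).filter (fun n => idx n < t) = Icc 1 M := fun t =>
    init_seg N (fun n => idx n < t) fun n hn m hm' hnm hlt => lt_of_le_of_lt (hm n hn m hm' hnm) hlt
  choose M hM1 hM2 using hseg
  have e : ∑ n ∈ Icc 1 N, v n (idx n) =
      ∑ t ∈ range J, (∑ n ∈ Icc 1 (M (t + 1)), v n t - ∑ n ∈ Icc 1 (M t), v n t) := by
    have e1 : ∀ n ∈ Icc 1 N, v n (idx n) = ∑ t ∈ range J,
        ((if idx n < t + 1 then v n t else 0) - (if idx n < t then v n t else 0)) := by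
      intro n hn
      rw [Finset.sum_eq_single_of_mem (idx n) (Finset.mem_range.2 (hidx n hn))]
      · rw [if_pos (by omega), if_neg (by omega), sub_zero]
      · intro t _ ht
        rcases lt_or_gt_of_ne ht with h1 | h1
        · rw [if_neg (by omega), if_neg (by omega), sub_zero]
        · rw [if_pos (by omega), if_pos (by omega), sub_self]
    rw [Finset.sum_congr rfl e1, Finset.sum_comm]
    refine Finset.sum_congr rfl fun t _ => ?_
    rw [Finset.sum_sub_distrib, ← Finset.sum_filter, ← Finset.sum_filter, hM2, hM2]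
  rw [e]
  refine (Finset.abs_sum_le_sum_abs _ _).trans ?_
  have h1 : ∑ t ∈ range J, |∑ n ∈ Icc 1 (M (t + 1)), v n t - ∑ n ∈ Icc 1 (M t), v n t| ≤
      ∑ _t ∈ range J, 2 * η := by
    refine Finset.sum_le_sum fun t ht => ?_
    have h2 := h t (Finset.mem_range.1 ht) _ (hM1 (t + 1))
    have h3 := h t (Finset.mem_range.1 ht) _ (hM1 t)
    refine (abs_sub _ _).trans ?_
    linarith
  refine h1.trans (le_of_eq ?_)
  rw [Finset.sum_const, card_range, nsmul_eq_mul]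

/-- the normalised error -/
noncomputable def de (m y : ℕ) : ℝ := (sp m y - sr m y) / y

theorem sp_diff (m : ℕ) {a b : ℕ} (hab : a ≤ b) : sp m b - sp m a ≤ (b : ℝ) - a := by
  have h := sub_Icc hab (fun h => pr (m + h))
  have h2 : ∑ h ∈ Ioc a b, pr (m + h) ≤ ∑ _h ∈ Ioc a b, (1 : ℝ) :=
    Finset.sum_le_sum fun h _ => pr_le _
  rw [Finset.sum_const, Nat.card_Ioc, nsmul_eq_mul, mul_one, Nat.cast_sub hab] at h2
  unfold sp
  linarith

theorem de_lip (m : ℕ) {a b : ℕ} (ha : 1 ≤ a) (hab : a ≤ b) :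
    |de m b - de m a| ≤ 2 * (((b : ℝ) - a) / a) := by
  have ha0 : (0 : ℝ) < a := by exact_mod_cast ha
  have hab' : (a : ℝ) ≤ b := by exact_mod_cast hab
  have hb0 : (0 : ℝ) < b := by linarith
  have h1 := sp_diff m hab
  have h2 := sr_diff m hab
  have h3 := sp_mono m hab
  have h4 := sr_mono m hab
  have h5 := sp_le m a
  have h6 := sr_le m a
  have h7 := sp_nonneg m a
  have h8 := sr_nonneg m a
  have e : de m b - de m a = ((sp m b - sr m b) - (sp m a - sr m a)) / b -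
      (sp m a - sr m a) * ((b - a) / (a * b)) := by
    unfold de
    field_simp
    ring
  rw [e]
  refine (abs_sub _ _).trans ?_
  have h9 : |((sp m b - sr m b) - (sp m a - sr m a)) / b| ≤ ((b : ℝ) - a) / a := by
    rw [abs_div, abs_of_pos hb0]
    refine div_le_div₀ (by linarith) ?_ ha0 hab'
    rw [abs_le]
    constructor <;> linarith
  have h10 : |(sp m a - sr m a) * (((b : ℝ) - a) / (a * b))| ≤ ((b : ℝ) - a) / a := by
    have h11 : 0 ≤ ((b : ℝ) - a) / (a * b) := div_nonneg (by linarith) (by positivity)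
    rw [abs_mul, abs_of_nonneg h11]
    have h12 : |sp m a - sr m a| ≤ b := by
      rw [abs_le]
      constructor <;> linarith
    calc _ ≤ (b : ℝ) * (((b : ℝ) - a) / (a * b)) := mul_le_mul_of_nonneg_right h12 h11
      _ = _ := by field_simp
  linarith

theorem de_grid (m q j y : ℕ) (hq : 2 ≤ q) (h1 : gr q j ≤ y) (h2 : y < gr q (j + 1)) :
    |de m y - de m (gr q j)| ≤ 8 / q := by
  have hq0 : (0 : ℝ) < q := by
    have : (2 : ℝ) ≤ q := by exact_mod_cast hq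
    linarith
  have hg := gr_one_le q j
  have hg0 : (0 : ℝ) < gr q j := by exact_mod_cast hg
  rcases gr_step q j hq with h | h
  · have e : y = gr q j := by omega
    rw [e, sub_self, abs_zero]
    positivity
  · refine (de_lip m hg h1).trans ?_
    have h3 : (y : ℝ) ≤ gr q (j + 1) := by exact_mod_cast h2.le
    have h4 : ((y : ℝ) - gr q j) / gr q j ≤ 4 / q := by
      rw [div_le_iff₀ hg0]
      have e : 4 / (q : ℝ) * gr q j = 4 * gr q j / q := by ring
      rw [e]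
      linarith
    have e : (8 : ℝ) / q = 2 * (4 / q) := by ring
    linarith

/-- **all monotone sequences of lengths** -/
theorem all_mono (S : Set ℕ) (x : ℕ → ℕ) (N q J : ℕ) (η : ℝ) (hq : 2 ≤ q)
    (h : ∀ j < J, ∀ M ≤ N, |∑ n ∈ Icc 1 M, ind S n * de (x n) (gr q j)| ≤ η)
    (y : ℕ → ℕ) (hy : ∀ n ∈ Icc 1 N, 1 ≤ y n ∧ y n < gr q J)
    (hm : ∀ n ∈ Icc 1 N, ∀ m ∈ Icc 1 N, n ≤ m → y n ≤ y m) :
    |∑ n ∈ Icc 1 N, ind S n * de (x n) (y n)| ≤ J * (2 * η) + N * (8 / q) := by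
  have hex : ∀ n : ℕ, ∃ j : ℕ, n ∈ Icc 1 N →
      j < J ∧ gr q j ≤ y n ∧ y n < gr q (j + 1) ∧ ∀ l, y n < gr q l → j < l := by
    intro n
    by_cases hn : n ∈ Icc 1 N
    · have hex : ∃ j, y n < gr q j := ⟨J, (hy n hn).2⟩
      have hf := Nat.find_spec hex
      have hmin := fun k => Nat.find_min hex (m := k)
      have hJ := Nat.find_min' hex (hy n hn).2
      have hall := fun l => Nat.find_min' hex (m := l)
      obtain ⟨j0, hj0⟩ : ∃ j0, j0 = Nat.find hex := ⟨_, rfl⟩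
      rw [← hj0] at hf hJ
      simp only [← hj0] at hall hmin
      have hne : j0 ≠ 0 := by
        rintro rfl
        rw [gr_zero] at hf
        have := (hy n hn).1
        omega
      obtain ⟨j, rfl⟩ : ∃ j, j0 = j + 1 := ⟨j0 - 1, by omega⟩
      refine ⟨j, fun _ => ⟨by omega, not_lt.1 (hmin j (by omega)), hf, fun l hl => ?_⟩⟩
      have := hall l hl
      omega
    · exact ⟨0, fun h => absurd h hn⟩
  choose idx hidx using hex
  have h1 := mono_sum N J idx (fun n hn => (hidx n hn).1) (fun n hn m hm' hnm => by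
    have h2 := hidx n hn
    have h3 := hidx m hm'
    have h4 := hm n hn m hm' hnm
    have h5 := h2.2.2.2 (idx m + 1) (lt_of_le_of_lt h4 h3.2.2.1)
    omega) (fun n j => ind S n * de (x n) (gr q j)) η h
  have e : ∑ n ∈ Icc 1 N, ind S n * de (x n) (y n) =
      ∑ n ∈ Icc 1 N, ind S n * de (x n) (gr q (idx n)) +
        ∑ n ∈ Icc 1 N, ind S n * (de (x n) (y n) - de (x n) (gr q (idx n))) := by
    rw [← Finset.sum_add_distrib]
    exact Finset.sum_congr rfl fun n _ => by ring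
  rw [e]
  refine (abs_add_le _ _).trans (add_le_add h1 ?_)
  refine (Finset.abs_sum_le_sum_abs _ _).trans ?_
  have h2 : ∑ n ∈ Icc 1 N, |ind S n * (de (x n) (y n) - de (x n) (gr q (idx n)))| ≤
      ∑ _n ∈ Icc 1 N, (8 : ℝ) / q := by
    refine Finset.sum_le_sum fun n hn => ?_
    have h3 := hidx n hn
    have h4 := de_grid (x n) q (idx n) (y n) hq h3.2.1 h3.2.2.1
    rw [abs_mul, abs_of_nonneg (ind_nonneg S n)]
    calc _ ≤ 1 * |de (x n) (y n) - de (x n) (gr q (idx n))| :=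
          mul_le_mul_of_nonneg_right (ind_le S n) (abs_nonneg _)
      _ ≤ _ := by linarith
  refine h2.trans (le_of_eq ?_)
  rw [Finset.sum_const, Nat.card_Icc, nsmul_eq_mul, Nat.add_sub_cancel]

theorem mlaw_u (c : ℝ) (hc : 0 < c) (S : Set ℕ) (b : ℝ) (K B : ℕ) :
    ∀ᵐ u ∂((volume : Measure ℝ).restrict (Set.Icc (0 : ℝ) 1)), ∀ᶠ N : ℕ in atTop,
      ∀ y : ℕ → ℕ, (∀ n ∈ Icc 1 N, 1 ≤ y n ∧ y n ≤ N ^ B) →
        (∀ n ∈ Icc 1 N, ∀ m ∈ Icc 1 N, n ≤ m → y n ≤ y m) →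
        |∑ n ∈ Icc 1 N, ind S n * de ⌊Real.exp (b + u) * (n : ℝ) ^ c⌋₊ (y n)| ≤
          N / Real.log N ^ K := by
  have h0 := ae_f (fam_av (fun n => pI n - pR n) fp_le neg_fp) c hc b (2 * K + 6) (K + 4)
    (fun i => (i + 1) ^ (K + 4)) (fun i => by push_cast; exact le_rfl)
    (fun i j => stp (av (fun n => pI n - pR n) (gr ((i + 1) ^ (K + 2)) j)))
    (fun i j => ⟨_, gr_one_le _ _, rfl⟩) (fun _ _ n => ((ind S n : ℝ) : ℂ))
    (fun _ _ n => by
      rw [Complex.norm_real, Real.norm_of_nonneg (ind_nonneg S n)]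
      exact ind_le S n)
  filter_upwards [h0] with u hu
  obtain ⟨a, ha⟩ : ∃ a : ℝ, a = Real.exp (b + u) := ⟨_, rfl⟩
  rw [← ha] at hu ⊢
  obtain ⟨i0, hi0⟩ := eventually_atTop.1 hu
  have hlog : Tendsto (fun N : ℕ => Real.log N) atTop atTop := nlog
  filter_upwards [eventually_ge_atTop (2 ^ (i0 + B + 2)),
    hlog.eventually_ge_atTop (2 ^ (K + 8))] with N hN hlN y hy hmono
  have hNpos : 0 < N := lt_of_lt_of_le (by positivity) hN
  have hN0 : (0 : ℝ) < N := by exact_mod_cast hNpos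
  obtain ⟨i, hi⟩ : ∃ i : ℕ, i = Nat.log 2 N + 1 := ⟨_, rfl⟩
  have hlow : 2 ^ (i - 1) ≤ N := by
    rw [hi, Nat.add_sub_cancel]
    exact Nat.pow_log_le_self 2 hNpos.ne'
  have hup : N < 2 ^ i := by
    rw [hi]
    exact Nat.lt_pow_succ_log_self (by norm_num) N
  have hiB : i0 + B + 2 < i := (Nat.pow_lt_pow_iff_right (by norm_num)).1 (lt_of_le_of_lt hN hup)
  have hi1 : 1 ≤ i := by omega
  have hiR : (0 : ℝ) < i := by exact_mod_cast hi1
  have hiR1 : (1 : ℝ) ≤ i := by exact_mod_cast hi1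
  have hl2 : Real.log 2 ≤ 1 := by
    have := Real.log_two_lt_d9
    linarith
  have hlogi : Real.log N ≤ i := by
    have h1 : Real.log N ≤ Real.log ((2 : ℝ) ^ i) := Real.log_le_log hN0 (by exact_mod_cast hup.le)
    rw [Real.log_pow] at h1
    have h2 : (i : ℝ) * Real.log 2 ≤ i * 1 := mul_le_mul_of_nonneg_left hl2 hiR.le
    linarith
  have h2i : (2 : ℝ) ^ i ≤ 2 * N := by
    have h1 : ((2 ^ (i - 1) : ℕ) : ℝ) ≤ N := by exact_mod_cast hlow
    push_cast at h1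
    have e : (2 : ℝ) ^ i = 2 * 2 ^ (i - 1) := by
      rw [← pow_succ']
      congr 1
      omega
    rw [e]
    linarith
  have hq : 2 ≤ (i + 1) ^ (K + 2) := by
    calc 2 ≤ i + 1 := by omega
      _ = (i + 1) ^ 1 := (pow_one _).symm
      _ ≤ (i + 1) ^ (K + 2) := Nat.pow_le_pow_right (by omega) (by omega)
  have hcount : (i + 1) ^ (K + 2) * (i * B + 1) < (i + 1) ^ (K + 4) := by
    have e : (i + 1) ^ (K + 4) = (i + 1) ^ (K + 2) * (i + 1) ^ 2 := by
      rw [← pow_add]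
    rw [e]
    apply Nat.mul_lt_mul_of_pos_left _ (by positivity)
    have : i * B + 1 < i * (i + 1) := by
      have h3 : i * B + i * 2 ≤ i * i := by
        rw [← Nat.mul_add]
        exact Nat.mul_le_mul_left i (by omega)
      nlinarith
    nlinarith
  have hX := all_mono S (fun n => ⌊a * (n : ℝ) ^ c⌋₊) N ((i + 1) ^ (K + 2))
    ((i + 1) ^ (K + 2) * (i * B + 1)) (2 ^ i / (i : ℝ) ^ (2 * K + 6)) hq ?_ y ?_ hmono
  · refine hX.trans ?_
    have hl0 : 0 < Real.log N := lt_of_lt_of_le (by positivity) hlN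
    have h3 : Real.log N ^ (K + 2) ≤ ((i : ℝ) + 1) ^ (K + 2) :=
      pow_le_pow_left₀ hl0.le (by linarith) _
    have h4 : Real.log N ^ (K + 2) ≤ (i : ℝ) ^ (K + 2) := pow_le_pow_left₀ hl0.le hlogi _
    have h5 : (((i + 1) ^ (K + 2) * (i * B + 1) : ℕ) : ℝ) ≤ 2 ^ (K + 4) * (i : ℝ) ^ (K + 4) := by
      have h6 : (((i + 1) ^ (K + 2) * (i * B + 1) : ℕ) : ℝ) ≤ (((i + 1) ^ (K + 4) : ℕ) : ℝ) := by
        exact_mod_cast hcount.le
      refine h6.trans ?_
      rw [← mul_pow]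
      push_cast
      exact pow_le_pow_left₀ (by positivity) (by linarith) _
    have h6 : (((i + 1) ^ (K + 2) * (i * B + 1) : ℕ) : ℝ) *
        (2 * (2 ^ i / (i : ℝ) ^ (2 * K + 6))) ≤ 2 ^ (K + 6) * N / Real.log N ^ (K + 2) := by
      calc (((i + 1) ^ (K + 2) * (i * B + 1) : ℕ) : ℝ) * (2 * (2 ^ i / (i : ℝ) ^ (2 * K + 6))) ≤
            (2 ^ (K + 4) * (i : ℝ) ^ (K + 4)) * (2 * ((2 * N) / (i : ℝ) ^ (2 * K + 6))) := by
            apply mul_le_mul h5 _ (by positivity) (by positivity)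
            apply mul_le_mul_of_nonneg_left _ (by norm_num)
            exact div_le_div_of_nonneg_right h2i (by positivity)
        _ = 2 ^ (K + 6) * N / (i : ℝ) ^ (K + 2) := by
            have e1 : (2 : ℝ) ^ (K + 6) = 2 ^ (K + 4) * 4 := by
              rw [show K + 6 = K + 4 + 2 by ring, pow_add _ (K + 4)]
              norm_num
            have e2 : (i : ℝ) ^ (2 * K + 6) = (i : ℝ) ^ (K + 4) * (i : ℝ) ^ (K + 2) := by
              rw [← pow_add]
              congr 1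
              ring
            rw [e1, e2]
            field_simp
            ring
        _ ≤ _ := div_le_div_of_nonneg_left (by positivity) (by positivity) h4
    have h7 : (N : ℝ) * (8 / (((i + 1) ^ (K + 2) : ℕ) : ℝ)) ≤ 8 * N / Real.log N ^ (K + 2) := by
      push_cast
      calc (N : ℝ) * (8 / ((i : ℝ) + 1) ^ (K + 2)) = 8 * N / ((i : ℝ) + 1) ^ (K + 2) := by ring
        _ ≤ _ := div_le_div_of_nonneg_left (by positivity) (by positivity) h3
    have h8 : (2 : ℝ) ^ (K + 6) * N / Real.log N ^ (K + 2) + 8 * N / Real.log N ^ (K + 2) ≤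
        N / Real.log N ^ K := by
      rw [← add_div, div_le_div_iff₀ (by positivity) (by positivity)]
      have h9 : (2 : ℝ) ^ (K + 6) + 8 ≤ Real.log N ^ 2 := by
        have h10 : (1 : ℝ) ≤ 2 ^ K := one_le_pow₀ (by norm_num)
        have e1 : (2 : ℝ) ^ (K + 6) = 2 ^ K * 64 := by rw [pow_add]; norm_num
        have e2 : (2 : ℝ) ^ (K + 8) = 2 ^ K * 256 := by rw [pow_add]; norm_num
        rw [e2] at hlN
        rw [e1]
        nlinarith
      have h10 : 0 ≤ (N : ℝ) * Real.log N ^ K := by positivity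
      calc ((2 : ℝ) ^ (K + 6) * N + 8 * N) * Real.log N ^ K =
            N * Real.log N ^ K * (2 ^ (K + 6) + 8) := by ring
        _ ≤ N * Real.log N ^ K * Real.log N ^ 2 := mul_le_mul_of_nonneg_left h9 h10
        _ = N * Real.log N ^ (K + 2) := by rw [pow_add]; ring
    exact (add_le_add h6 h7).trans h8
  · intro j hj M hM
    have h3 := hi0 i (by omega) j (hj.trans hcount) M (hM.trans hup.le)
    obtain ⟨g, hg⟩ : ∃ g : ℕ, g = gr ((i + 1) ^ (K + 2)) j := ⟨_, rfl⟩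
    rw [← hg] at h3 ⊢
    have e : ∑ n ∈ Icc 1 M, ((ind S n : ℝ) : ℂ) * stp (av (fun n => pI n - pR n) g)
        (a * (n : ℝ) ^ c) = ((∑ n ∈ Icc 1 M, ind S n *
          de ⌊a * (n : ℝ) ^ c⌋₊ g : ℝ) : ℂ) := by
      rw [Complex.ofReal_sum]
      refine Finset.sum_congr rfl fun n _ => ?_
      unfold stp de
      rw [av_eq]
      push_cast
      ring
    rw [e, Complex.norm_real, Real.norm_eq_abs] at h3
    exact h3
  · intro n hn
    refine ⟨(hy n hn).1, ?_⟩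
    calc y n ≤ N ^ B := (hy n hn).2
      _ ≤ (2 ^ i) ^ B := Nat.pow_le_pow_left hup.le B
      _ = 2 ^ (i * B) := (pow_mul 2 i B).symm
      _ < 2 ^ (i * B + 1) := Nat.pow_lt_pow_right (by norm_num) (by omega)
      _ ≤ _ := gr_big _ _ (by omega)

/-- **primes after the terms of almost every dilated power sequence**: arbitrary set, all monotone
sequences of lengths -/
theorem mlaw (c : ℝ) (hc : 0 < c) (S : Set ℕ) : ∀ᵐ a : ℝ, 0 < a → ∀ K B : ℕ, ∀ᶠ N : ℕ in atTop,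
    ∀ y : ℕ → ℕ, (∀ n ∈ Icc 1 N, 1 ≤ y n ∧ y n ≤ N ^ B) →
      (∀ n ∈ Icc 1 N, ∀ m ∈ Icc 1 N, n ≤ m → y n ≤ y m) →
        |∑ n ∈ Icc 1 N, ind S n * de ⌊a * (n : ℝ) ^ c⌋₊ (y n)| ≤ N / Real.log N ^ K := by
  refine ae_cubes1 (fun a => ∀ K B : ℕ, ∀ᶠ N : ℕ in atTop,
    ∀ y : ℕ → ℕ, (∀ n ∈ Icc 1 N, 1 ≤ y n ∧ y n ≤ N ^ B) →
      (∀ n ∈ Icc 1 N, ∀ m ∈ Icc 1 N, n ≤ m → y n ≤ y m) →
        |∑ n ∈ Icc 1 N, ind S n * de ⌊a * (n : ℝ) ^ c⌋₊ (y n)| ≤ N / Real.log N ^ K) fun b => ?_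
  rw [ae_all_iff]
  intro K
  rw [ae_all_iff]
  intro B
  exact mlaw_u c hc S (b : ℝ) K B

end Pool.Agent.U996.WA
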